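import Pool.Agent.Q292.Env.Univ
import Pool.Agent.H980R4.Rate4

/-!
The layered environments in the coordinates of the slit strip, all widths, the rate.
-/

set_option autoImplicit false
set_option linter.unusedSimpArgs false

namespace Q292.Env

open Pool.Agent.H988R2.Perc Finset MeasureTheory ProbabilityTheory unitInterval Filter Topology
open Pool.Agent.H980R3.Slit Pool.Agent.H863R4

theorem percP_map (e : Edge ≃ Edge) (p : Edge → I) (S : Set Conf) :
    (percP (fun i => p (e i))).real ((fun ω : Conf => fun i => ω (e.symm i)) ⁻¹' S) =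
      (percP p).real S := by
  have hmap : (percP (fun i => p (e i))).map (MeasurableEquiv.piCongrLeft (fun _ : Edge => Bool) e)
      = percP p := by
    unfold percP
    exact Measure.infinitePi_map_piCongrLeft
      (μ := fun i : Edge => bernoulliMeasure true false (p i)) e
  have hfun : (fun ω : Conf => fun i => ω (e.symm i)) =
      (MeasurableEquiv.piCongrLeft (fun _ : Edge => Bool) e) := by
    funext ω i
    obtain ⟨j, rfl⟩ := e.surjective i
    rw [MeasurableEquiv.coe_piCongrLeft, Equiv.piCongrLeft_apply_apply, e.symm_apply_apply]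
  rw [hfun, measureReal_def, measureReal_def, ← MeasurableEquiv.map_apply, hmap]

/-- the event of the slit strip centred at the slit is a translate -/
theorem scross_preimage {a : ℕ} (k : ℕ) (hk : a = 2 * k + 1) (b : ℕ) :
    SCross a b = (fun ω : Conf => fun i => ω ((sh (k + 1) (-k)).symm i)) ⁻¹' (Pool.Agent.H31C.Cross a b) := by
  have hkz : (a:ℤ) = 2 * k + 1 := by exact_mod_cast hk
  have hstep : ∀ (ω : Conf) (x y : ℤ × ℤ), SAdj a b ω x y ↔
      Pool.Agent.H31C.SlitAdj a (a+b+1) (fun i => ω ((sh (k+1) (-k)).symm i)) (x.1 + (k+1), x.2 + (-k))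
        (y.1 + (k+1), y.2 + (-k)) := by
    intro ω x y
    unfold SAdj Pool.Agent.H31C.SlitAdj
    rw [openAdj_sh]
    simp only
    push_cast
    constructor
    · rintro ⟨e1, e2, e3, e4, e5, e6⟩
      exact ⟨e1, by omega, by omega, by omega, by omega, by omega⟩
    · rintro ⟨e1, e2, e3, e4, e5, e6⟩
      exact ⟨e1, by omega, by omega, by omega, by omega, by omega⟩
  ext ω
  constructor
  · rintro ⟨x, y, h1, h2, h3, h4⟩
    refine ⟨(x.1 + (k+1), x.2 + (-k)), (y.1 + (k+1), y.2 + (-k)), ?_, ?_, ?_, ?_⟩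
    · show x.1 + (k+1) - (x.2 + (-k)) = (a:ℤ); omega
    · show 1 ≤ x.1 + (k+1) + (x.2 + (-k)); omega
    · show y.1 + (k+1) - (y.2 + (-k)) = ((a+b+1 : ℕ) : ℤ); push_cast; omega
    · exact h4.lift (fun z : ℤ × ℤ => (z.1 + (k+1), z.2 + (-k))) fun p q hpq => (hstep ω p q).mp hpq
  · rintro ⟨x, y, h1, h2, h3, h4⟩
    refine ⟨(x.1 - (k+1), x.2 - (-k)), (y.1 - (k+1), y.2 - (-k)), ?_, ?_, ?_, ?_⟩
    · show x.1 - (k+1) - (x.2 - (-k)) = 0; omega
    · show 0 ≤ x.1 - (k+1) + (x.2 - (-k)); omega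
    · show y.1 - (k+1) - (y.2 - (-k)) = (b:ℤ) + 1; push_cast at h3; omega
    · refine h4.lift (fun z : ℤ × ℤ => (z.1 - (k+1), z.2 - (-k))) fun p q hpq => ?_
      show SAdj a b ω (p.1 - (k+1), p.2 - (-k)) (q.1 - (k+1), q.2 - (-k))
      rw [hstep]
      simpa using hpq

/-- the probability that the edge is open: horizontal edges `x`, vertical edges `1 - x`, where `x`
depends on the layer `u + v`, and it is given by `g` to the right of the slit and by `h` elsewhere -/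
def pHG (h g : ℤ → I) (e : Edge) : I :=
  let x := if 0 ≤ e.1 + e.2.1 ∧ 1 ≤ e.1 - e.2.1 then g (e.1 + e.2.1) else h (e.1 + e.2.1)
  if e.2.2 then σ x else x

theorem lay_hg {a b k : ℕ} (hk : a = 2 * k + 1) (h g : ℤ → I)
    (hh : ∀ n : ℤ, h (2 * n + 1) = σ (h (2 * n))) (hg : ∀ n : ℤ, g (2 * n + 1) = σ (g (2 * n))) :
    Lay a b (fun i => pHG h g ((sh (k + 1) (-k)).symm i)) (fun n => h (2 * n + 1))
      (fun n => h (2 * n + 1)) (fun n => g (2 * n + 1)) := by
  have hkz : (a:ℤ) = 2 * k + 1 := by exact_mod_cast hk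
  have es : ∀ i : Edge, (sh (k + 1) (-k)).symm i = (i.1 - (k + 1), i.2.1 - (-k), i.2.2) :=
    fun _ => rfl
  constructor
  · intro i r h1 h2 h3
    unfold edgeOf
    split_ifs with c1 c2 c2
    · simp only [es, pHG, ↓reduceIte, Bool.false_eq_true]
      rw [if_neg (by omega)]
      have e1 : (i + r + 1) / 2 - (k + 1) + ((r + 1 - i) / 2 - -(k:ℤ)) = 2 * (r / 2) := by omega
      rw [e1, hh]
      try simp
    · simp only [es, pHG, ↓reduceIte, Bool.false_eq_true]
      rw [if_neg (by omega)]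
      have e1 : (i + r + 1) / 2 - (k + 1) + ((r + 1 - i) / 2 - -(k:ℤ)) = 2 * (r / 2) + 1 := by omega
      rw [e1]
      try simp
    · simp only [es, pHG, ↓reduceIte, Bool.false_eq_true]
      rw [if_neg (by omega)]
      have e1 : (i + r) / 2 - (k + 1) + ((r + 2 - i) / 2 - -(k:ℤ)) = 2 * (r / 2) + 1 := by omega
      rw [e1]
      try simp
    · simp only [es, pHG, ↓reduceIte, Bool.false_eq_true]
      rw [if_neg (by omega)]
      have e1 : (i + r) / 2 - (k + 1) + ((r + 2 - i) / 2 - -(k:ℤ)) = 2 * (r / 2) := by omega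
      rw [e1, hh]
      try simp
  · intro i r h1 h2 h3
    unfold edgeOf
    split_ifs with c1 c2 c2
    · simp only [es, pHG, ↓reduceIte, Bool.false_eq_true]
      rw [if_neg (by omega)]
      have e1 : (i + r + 1) / 2 - (k + 1) + ((r + 1 - i) / 2 - -(k:ℤ)) = 2 * (r / 2) := by omega
      rw [e1, hh]
      try simp
    · simp only [es, pHG, ↓reduceIte, Bool.false_eq_true]
      rw [if_neg (by omega)]
      have e1 : (i + r + 1) / 2 - (k + 1) + ((r + 1 - i) / 2 - -(k:ℤ)) = 2 * (r / 2) + 1 := by omega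
      rw [e1]
      try simp
    · simp only [es, pHG, ↓reduceIte, Bool.false_eq_true]
      rw [if_neg (by omega)]
      have e1 : (i + r) / 2 - (k + 1) + ((r + 2 - i) / 2 - -(k:ℤ)) = 2 * (r / 2) + 1 := by omega
      rw [e1]
      try simp
    · simp only [es, pHG, ↓reduceIte, Bool.false_eq_true]
      rw [if_neg (by omega)]
      have e1 : (i + r) / 2 - (k + 1) + ((r + 2 - i) / 2 - -(k:ℤ)) = 2 * (r / 2) := by omega
      rw [e1, hh]
      try simp
  · intro i r h1 h2 h3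
    unfold edgeOf
    split_ifs with c1 c2 c2
    · simp only [es, pHG, ↓reduceIte, Bool.false_eq_true]
      rw [if_pos (by omega)]
      have e1 : (i + r + 1) / 2 - (k + 1) + ((r + 1 - i) / 2 - -(k:ℤ)) = 2 * (r / 2) := by omega
      rw [e1, hg]
      try simp
    · simp only [es, pHG, ↓reduceIte, Bool.false_eq_true]
      rw [if_pos (by omega)]
      have e1 : (i + r + 1) / 2 - (k + 1) + ((r + 1 - i) / 2 - -(k:ℤ)) = 2 * (r / 2) + 1 := by omega
      rw [e1]
      try simp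
    · simp only [es, pHG, ↓reduceIte, Bool.false_eq_true]
      rw [if_pos (by omega)]
      have e1 : (i + r) / 2 - (k + 1) + ((r + 2 - i) / 2 - -(k:ℤ)) = 2 * (r / 2) + 1 := by omega
      rw [e1]
      try simp
    · simp only [es, pHG, ↓reduceIte, Bool.false_eq_true]
      rw [if_pos (by omega)]
      have e1 : (i + r) / 2 - (k + 1) + ((r + 2 - i) / 2 - -(k:ℤ)) = 2 * (r / 2) := by omega
      rw [e1, hg]
      try simp

/-- nondegenerate environments -/
structure Nondeg (h g : ℤ → I) : Prop where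
  h_pair : ∀ n : ℤ, h (2 * n + 1) = σ (h (2 * n))
  g_pair : ∀ n : ℤ, g (2 * n + 1) = σ (g (2 * n))
  h_up : ∃ ε : ℝ, 0 < ε ∧ ∃ᶠ n : ℕ in atTop, ε ≤ (h (2 * n) : ℝ) ∧ (h (2 * n) : ℝ) ≤ 1 - ε
  g_up : ∃ ε : ℝ, 0 < ε ∧ ∃ᶠ n : ℕ in atTop, ε ≤ (g (2 * n) : ℝ) ∧ (g (2 * n) : ℝ) ≤ 1 - ε
  h_down : ∃ ε : ℝ, 0 < ε ∧ ∃ᶠ n : ℕ in atTop, ε ≤ (h (-(2 * n)) : ℝ) ∧ (h (-(2 * n)) : ℝ) ≤ 1 - ε

theorem symm_val (x : I) : ((σ x : I) : ℝ) = 1 - x := rfl

theorem elF_of {h : ℤ → I} (hp : ∀ n : ℤ, h (2 * n + 1) = σ (h (2 * n)))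
    (hu : ∃ ε : ℝ, 0 < ε ∧ ∃ᶠ n : ℕ in atTop, ε ≤ (h (2 * n) : ℝ) ∧ (h (2 * n) : ℝ) ≤ 1 - ε) :
    ElF (fun n => h (2 * n + 1)) := by
  obtain ⟨ε, hε, hf⟩ := hu
  refine ⟨ε, hε, hf.mono fun n hn => ?_⟩
  simp only
  rw [hp, symm_val]
  constructor <;> linarith [hn.1, hn.2]

theorem elP_of {h : ℤ → I} (hp : ∀ n : ℤ, h (2 * n + 1) = σ (h (2 * n)))
    (hu : ∃ ε : ℝ, 0 < ε ∧ ∃ᶠ n : ℕ in atTop, ε ≤ (h (-(2 * n)) : ℝ) ∧
      (h (-(2 * n)) : ℝ) ≤ 1 - ε) :
    ElP (fun n => h (2 * n + 1)) := by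
  obtain ⟨ε, hε, hf⟩ := hu
  refine ⟨ε, hε, ?_⟩
  rw [frequently_atTop] at hf ⊢
  intro N
  obtain ⟨n, hn, h1⟩ := hf (N+1)
  refine ⟨n - 1, by omega, ?_⟩
  simp only
  rw [hp, symm_val]
  have e : 2 * (-(((n - 1 : ℕ)) : ℤ) - 1) = -(2 * (n:ℤ)) := by omega
  rw [e]
  constructor <;> linarith [h1.1, h1.2]

/-- **exact universality, odd widths** -/
theorem scrossP_eq {h g : ℤ → I} (hn : Nondeg h g) {a b : ℕ} (ha : Odd a) (hb : Odd b) :
    (percP (pHG h g)).real (SCross a b) = perc.real (SCross a b) := by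
  obtain ⟨k, hk⟩ := id ha
  have h1 := lay_hg (b := b) hk h g hn.h_pair hn.g_pair
  have h2 := percP_slitCross h1 (elP_of hn.h_pair hn.h_down) (elF_of hn.h_pair hn.h_up)
    (elF_of hn.g_pair hn.g_up) ha hb
  rw [← cross_eq31] at h2
  rw [scross_eq ha b, ← h2, scross_preimage k hk b]
  rw [← percP_map (sh (k + 1) (-k)) (fun i => pHG h g ((sh (k + 1) (-k)).symm i))]
  simp only [Equiv.symm_apply_apply]

open Pool.Agent.H980R4.Rate in
/-- **the rate in Cardy's formula, all widths, all environments** -/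
theorem cross_rateP {h g : ℤ → I} (hn : Nondeg h g) {a b : ℕ} (ha : 1 ≤ a) (hb : 1 ≤ b) :
    |(percP (pHG h g)).real (SCross a b) - cardyF ((a:ℝ) / (a + b))| ≤
      60 * ((min a b : ℕ) : ℝ) ^ (-(2/3) : ℝ) * ((a:ℝ) + b) ^ (-(1/3) : ℝ) := by
  have hE := Pool.Agent.H31C.exact_cardy
  have pa : (1:ℝ) ≤ a := by exact_mod_cast ha
  have pb : (1:ℝ) ≤ b := by exact_mod_cast hb
  have hs : (0:ℝ) < (a:ℝ) + b := by linarith
  have key : ∀ a' b' : ℕ, Odd a' → Odd b' → |(a' : ℝ) - a| ≤ 1 → |(b' : ℝ) - b| ≤ 1 →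
      a + b ≤ a' + b' + 1 → |(percP (pHG h g)).real (SCross a' b') - cardyF ((a:ℝ) / (a + b))| ≤
      60 * ((min a b : ℕ) : ℝ) ^ (-(2/3) : ℝ) * ((a:ℝ) + b) ^ (-(1/3) : ℝ) := by
    intro a' b' ha' hb' h1 h2 h3
    rw [scrossP_eq hn ha' hb']
    have k1 := cross_rate_odd hE ha' hb'
    have k2 := F_near ha hb ha'.pos hb'.pos h1 h2
    rw [← scross_eq ha' b', cardyF_eq] at k1
    rw [cardyF_eq]
    have pa' : (1:ℝ) ≤ a' := by exact_mod_cast ha'.pos
    have pb' : (1:ℝ) ≤ b' := by exact_mod_cast hb'.pos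
    rw [abs_le] at h1 h2
    have h3' : (a:ℝ) + b ≤ a' + b' + 1 := by exact_mod_cast h3
    set n : ℝ := ((min a b : ℕ) : ℝ) with hn
    set n' : ℝ := ((min a' b' : ℕ) : ℝ) with hn'
    have hn1 : 1 ≤ n := by rw [hn]; exact_mod_cast le_min ha hb
    have hna : n ≤ a := by rw [hn]; exact_mod_cast min_le_left a b
    have hnb : n ≤ b := by rw [hn]; exact_mod_cast min_le_right a b
    have hnn : n / 2 ≤ n' := by
      rw [hn', Nat.cast_min, le_min_iff]
      constructor <;> linarith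
    have t1 : n' ^ (-(2/3) : ℝ) ≤ (49/30) * n ^ (-(2/3) : ℝ) := by
      refine (rp_anti (by linarith) hnn).trans ?_
      rw [Real.div_rpow (by linarith) (by norm_num), Real.rpow_neg (by norm_num : (0:ℝ) ≤ 2),
        div_inv_eq_mul, mul_comm]
      apply mul_le_mul_of_nonneg_right _ (by positivity)
      have e : (2:ℝ) ^ (2/3 : ℝ) = ((2:ℝ) ^ (2:ℝ)) ^ (1/3 : ℝ) := by
        rw [← Real.rpow_mul (by norm_num)]; norm_num
      have e2 : (49/30:ℝ) = ((49/30:ℝ) ^ (3:ℝ)) ^ (1/3 : ℝ) := by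
        rw [← Real.rpow_mul (by norm_num)]; norm_num
      rw [e, e2]
      apply Real.rpow_le_rpow (by positivity) _ (by norm_num)
      norm_num
    have t2 : ((a':ℝ) + b' + 1) ^ (-(1/3) : ℝ) ≤ ((a:ℝ) + b) ^ (-(1/3) : ℝ) :=
      Real.rpow_le_rpow_of_nonpos hs h3' (by norm_num)
    have t3 : 30 * n' ^ (-(2/3) : ℝ) * ((a':ℝ) + b' + 1) ^ (-(1/3) : ℝ) ≤
        49 * n ^ (-(2/3) : ℝ) * ((a:ℝ) + b) ^ (-(1/3) : ℝ) :=
      mul_le_mul (by linarith) t2 (by positivity) (by positivity)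
    calc |perc.real (SCross a' b') - F ((a:ℝ) / (a + b))|
        ≤ |perc.real (SCross a' b') - F ((a':ℝ) / (a' + b'))| +
          |F ((a':ℝ) / (a' + b')) - F ((a:ℝ) / (a + b))| := abs_sub_le _ _ _
      _ ≤ _ := by linarith
  have l1 : (percP (pHG h g)).real (SCross (od a) (ou b)) ≤ (percP (pHG h g)).real (SCross a b) :=
    (measureReal_mono (scross_mono_left (od_le (by omega)) _)).trans
      (measureReal_mono (scross_anti_right a (le_ou b)))
  have l2 : (percP (pHG h g)).real (SCross a b) ≤ (percP (pHG h g)).real (SCross (ou a) (od b)) :=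
    (measureReal_mono (scross_mono_left (le_ou a) _)).trans
      (measureReal_mono (scross_anti_right (ou a) (od_le (by omega))))
  have k1 := key (od a) (ou b) (od_odd a) (ou_odd b) (od_dist a) (ou_dist b) (by
    have := le_ou b
    have : a ≤ od a + 1 := by unfold od; split_ifs <;> omega
    omega)
  have k2 := key (ou a) (od b) (ou_odd a) (od_odd b) (ou_dist a) (od_dist b) (by
    have := le_ou a
    have : b ≤ od b + 1 := by unfold od; split_ifs <;> omega
    omega)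
  rw [abs_le] at k1 k2 ⊢
  constructor <;> linarith [k1.1, k1.2, k2.1, k2.2]

end Q292.Env
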