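import Mathlib

/-!
Infinite product measures on `ι → Bool` which differ in finitely many factors.
-/

set_option autoImplicit false

namespace Q292.Env

open MeasureTheory ProbabilityTheory Finset
open scoped ENNReal

theorem infinitePi_withDensity {ι : Type*} (μ ν : ι → Measure Bool)
    [∀ i, IsProbabilityMeasure (μ i)] [∀ i, IsProbabilityMeasure (ν i)] (F : Finset ι)
    (f : ι → Bool → ℝ≥0∞) (hf : ∀ i ∈ F, ν i = (μ i).withDensity (f i))
    (hF : ∀ i, i ∉ F → ν i = μ i) :
    Measure.infinitePi ν = (Measure.infinitePi μ).withDensity (fun ω => ∏ i ∈ F, f i (ω i)) := by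
  classical
  symm
  refine Measure.eq_infinitePi ν fun s t ht => ?_
  have hms : MeasurableSet (Set.pi (↑s : Set ι) t) :=
    MeasurableSet.pi (countable_toSet s) (fun i _ => ht i)
  rw [withDensity_apply _ hms, ← lintegral_indicator hms]
  set G : ι → Bool → ℝ≥0∞ := fun i b =>
    (if i ∈ s then (t i).indicator 1 b else 1) * (if i ∈ F then f i b else 1) with hG
  have e1 : ∀ ω : ι → Bool, (Set.pi (↑s : Set ι) t).indicator (fun ω => ∏ i ∈ F, f i (ω i)) ω =
      ∏ i ∈ s ∪ F, G i (ω i) := by
    intro ω
    rw [hG]
    simp only [Finset.prod_mul_distrib]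
    rw [Finset.prod_ite_mem, Finset.prod_ite_mem, Finset.union_inter_cancel_left,
      Finset.union_inter_cancel_right]
    by_cases hω : ω ∈ Set.pi (↑s : Set ι) t
    · rw [Set.indicator_of_mem hω]
      have : ∏ i ∈ s, (t i).indicator (1 : Bool → ℝ≥0∞) (ω i) = 1 := by
        refine Finset.prod_eq_one fun i hi => ?_
        rw [Set.indicator_of_mem (hω i (by simpa using hi))]
        rfl
      rw [this, one_mul]
    · rw [Set.indicator_of_notMem hω]
      have : ∃ i ∈ s, ω i ∉ t i := by
        by_contra hcon
        push Not at hcon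
        exact hω fun i hi => hcon i (by simpa using hi)
      obtain ⟨i, hi, hit⟩ := this
      rw [Finset.prod_eq_zero hi (Set.indicator_of_notMem hit _), zero_mul]
  simp_rw [e1]
  have hind : iIndepFun (fun (i : ι) (ω : ι → Bool) => G i (ω i)) (Measure.infinitePi μ) :=
    iIndepFun_infinitePi (X := fun i b => G i b) (fun _ => measurable_of_countable _)
  have e3 := lintegral_prod_eq_prod_lintegral_of_indepFun (μ := Measure.infinitePi μ) (s ∪ F)
    (fun (i : ι) (ω : ι → Bool) => G i (ω i)) hind
    (fun i => (measurable_of_countable (G i)).comp (measurable_pi_apply i))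
  rw [e3]
  have e2 : ∀ i ∈ s ∪ F, ∫⁻ ω, G i (ω i) ∂(Measure.infinitePi μ) =
      if i ∈ s then ν i (t i) else 1 := by
    intro i hi
    have h1 : ∫⁻ ω, G i (ω i) ∂(Measure.infinitePi μ) = ∫⁻ b, G i b ∂(μ i) := by
      rw [← (measurePreserving_eval_infinitePi μ i).lintegral_comp (measurable_of_countable _)]
    rw [h1]
    by_cases his : i ∈ s
    · rw [if_pos his]
      by_cases hiF : i ∈ F
      · have h2 : ∀ b, G i b = (t i).indicator (f i) b := by
          intro b
          simp only [hG, his, hiF, if_true]
          by_cases hb : b ∈ t i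
          · simp [hb]
          · simp [hb]
        simp_rw [h2]
        rw [lintegral_indicator (ht i), hf i hiF, withDensity_apply _ (ht i)]
      · have h2 : ∀ b, G i b = (t i).indicator 1 b := by
          intro b
          simp [hG, his, hiF]
        simp_rw [h2]
        rw [lintegral_indicator_one (ht i), hF i hiF]
    · rw [if_neg his]
      have hiF : i ∈ F := by
        rcases Finset.mem_union.mp hi with h | h
        · exact absurd h his
        · exact h
      have h2 : ∀ b, G i b = f i b := by
        intro b
        simp [hG, his, hiF]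
      simp_rw [h2]
      have h3 : ν i Set.univ = 1 := measure_univ
      rw [hf i hiF, withDensity_apply _ MeasurableSet.univ, Measure.restrict_univ] at h3
      exact h3
  rw [Finset.prod_congr rfl e2, Finset.prod_ite_mem, Finset.union_inter_cancel_left]

end Q292.Env
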