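import Pool.Agent.Q292.Env.Indep2

/-!
The independence in the coordinates of the slit strip.
-/

set_option autoImplicit false

namespace Q292.Env

open Pool.Agent.H988R2.Perc Finset MeasureTheory ProbabilityTheory unitInterval Filter Topology
open Pool.Agent.H980R3.Slit Pool.Agent.H863R4

/-- the edge in the unit square `[j, j+1] × [r, r+1]` of the (column, height) plane -/
def sq (j r : ℤ) : Edge :=
  if (r + j) % 2 = 0 then ((r + j) / 2, (r - j) / 2, false)
  else ((r + j + 1) / 2, (r - j - 1) / 2, true)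

/-- `1` for an open horizontal edge, `-1` for an open vertical edge, `0` for a closed edge -/
def sg (ω : Conf) (e : Edge) : ℤ := if ω e = true then (if e.2.2 = true then -1 else 1) else 0

/-- the squares of the rows of the three parts of the slit strip -/
noncomputable def cols (a b : ℕ) (l : Fin 3) : Finset ℤ :=
  if l = 0 then Finset.Ico (-(a:ℤ)) (b + 1) else if l = 1 then Finset.Ico (-(a:ℤ)) 0
    else Finset.Ico 1 ((b:ℤ) + 1)

/-- the lower one of the two rows of the double row `n` of the part `l` -/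
def lowRow (l : Fin 3) (n : ℕ) : ℤ := if l = 0 then -(2 * (n:ℤ)) - 2 else 2 * n

/-- the difference of the anisotropies of the two rows of the double row -/
noncomputable def DD (a b : ℕ) (ω : Conf) (i : Fin 3 × ℕ) : ℤ :=
  ∑ j ∈ cols a b i.1, (sg ω (sq j (lowRow i.1 i.2)) - sg ω (sq j (lowRow i.1 i.2 + 1)))

/-- the group of an index -/
def ph (i : Fin 3 × ℕ) : ℤ × Bool :=
  if i.1 = 0 then (-(i.2:ℤ) - 1, false) else if i.1 = 1 then ((i.2:ℤ), false) else ((i.2:ℤ), true)

theorem ph_inj : Function.Injective ph := by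
  rintro ⟨l, n⟩ ⟨l', n'⟩ h
  unfold ph at h
  simp only at h
  fin_cases l <;> fin_cases l' <;> simp at h ⊢ <;> omega

theorem lowRow_eq (i : Fin 3 × ℕ) : lowRow i.1 i.2 = 2 * (ph i).1 := by
  obtain ⟨l, n⟩ := i
  unfold ph lowRow
  fin_cases l <;> simp <;> ring

/-- the columns of the tiles of a group -/
noncomputable def tc (a b : ℕ) (ι : ℤ × Bool) : Finset ℤ :=
  if ι.1 < 0 then Finset.Icc 1 ((a:ℤ) + b + 1)
  else if ι.2 = true then Finset.Icc ((a:ℤ) + 2) ((a:ℤ) + b + 1) else Finset.Icc 1 (a:ℤ)

theorem tl_eq (a b : ℕ) (ι : ℤ × Bool) :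
    tl a b ι = tc a b ι ×ˢ Finset.Icc (2 * ι.1) (2 * ι.1 + 1) := by
  unfold tl tc
  split_ifs <;> rfl

theorem cols_map (a b : ℕ) (i : Fin 3 × ℕ) :
    tc a b (ph i) = (cols a b i.1).image (fun j : ℤ => j + 1 + (a:ℤ)) := by
  obtain ⟨l, n⟩ := i
  ext t
  unfold ph tc cols
  simp only [Finset.mem_image]
  fin_cases l
  · simp only [Fin.mk_zero, Fin.zero_eta, if_true, Fin.isValue]
    rw [if_pos (by omega)]
    simp only [Finset.mem_Icc, Finset.mem_Ico]
    constructor
    · rintro ⟨h1, h2⟩
      exact ⟨t - 1 - a, by omega, by omega⟩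
    · rintro ⟨j, h1, rfl⟩
      omega
  · simp only [Fin.mk_one, Fin.isValue, one_ne_zero, if_false, if_true]
    rw [if_neg (by omega)]
    simp only [Bool.false_eq_true, if_false, Finset.mem_Icc, Finset.mem_Ico]
    constructor
    · rintro ⟨h1, h2⟩
      exact ⟨t - 1 - a, by omega, by omega⟩
    · rintro ⟨j, h1, rfl⟩
      omega
  · simp only [Fin.reduceFinMk, Fin.isValue, Fin.reduceEq, if_false]
    rw [if_neg (by omega)]
    simp only [if_true, Finset.mem_Icc, Finset.mem_Ico]
    constructor
    · rintro ⟨h1, h2⟩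
      exact ⟨t - 1 - a, by omega, by omega⟩
    · rintro ⟨j, h1, rfl⟩
      omega

theorem sum_tl (a b : ℕ) (i : Fin 3 × ℕ) (F : ℤ × ℤ → ℤ) :
    ∑ t ∈ tl a b (ph i), F t = ∑ j ∈ cols a b i.1,
      (F (j + 1 + a, lowRow i.1 i.2) + F (j + 1 + a, lowRow i.1 i.2 + 1)) := by
  rw [tl_eq, Finset.sum_product, cols_map, Finset.sum_image (fun x _ y _ h => by simpa using h),
    lowRow_eq]
  refine Finset.sum_congr rfl fun j _ => ?_
  have : Finset.Icc (2 * (ph i).1) (2 * (ph i).1 + 1) = {2 * (ph i).1, 2 * (ph i).1 + 1} := by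
    ext x
    simp only [Finset.mem_Icc, Finset.mem_insert, Finset.mem_singleton]
    omega
  rw [this, Finset.sum_pair (by omega)]

/-- the shifted configuration -/
def shc (k : ℕ) (ω : Conf) : Conf := fun i => ω ((sh ((k:ℤ) + 1) (-(k:ℤ))).symm i)

theorem sh_edgeOf {a k : ℕ} (hk : a = 2 * k + 1) (ω : Conf) (j r : ℤ) :
    shc k ω (edgeOf (j + 1 + a) r) = ω (sq j r) := by
  have hkz : (a:ℤ) = 2 * k + 1 := by exact_mod_cast hk
  have es : ∀ i : Edge, (sh ((k:ℤ) + 1) (-(k:ℤ))).symm i = (i.1 - (k + 1), i.2.1 - (-k), i.2.2) :=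
    fun _ => rfl
  unfold shc edgeOf sq
  congr 1
  split_ifs with h1 h2 h2
  · omega
  · rw [es]
    simp only [Prod.mk.injEq, and_true]
    omega
  · rw [es]
    simp only [Prod.mk.injEq, and_true]
    omega
  · omega

theorem NN_add (a b k : ℕ) (hk : a = 2 * k + 1) (ω : Conf) (i : Fin 3 × ℕ) :
    (NN a b (shc k ω) (ph i) : ℤ) + DD a b ω i =
      (((tl a b (ph i)).filter (fun t => t.1 % 2 = 0)).card : ℤ) := by
  have hkz : (a:ℤ) = 2 * k + 1 := by exact_mod_cast hk
  unfold NN
  rw [Finset.card_filter, Finset.card_filter]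
  push_cast
  rw [sum_tl a b i (fun t => if aB t (shc k ω) = true then 1 else 0),
    sum_tl a b i (fun t => if t.1 % 2 = 0 then 1 else 0)]
  unfold DD
  rw [← Finset.sum_add_distrib]
  refine Finset.sum_congr rfl fun j _ => ?_
  have hev : lowRow i.1 i.2 % 2 = 0 := by rw [lowRow_eq]; omega
  unfold aB
  simp only
  rw [sh_edgeOf hk, sh_edgeOf hk]
  generalize lowRow i.1 i.2 = r at hev
  have d1 : (sq j r).2.2 = decide ((j + 1 + (a:ℤ)) % 2 = 1) := by
    unfold sq
    split_ifs with h
    · simp only
      symm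
      rw [decide_eq_false_iff_not]
      omega
    · simp only
      symm
      rw [decide_eq_true_eq]
      omega
  have d2 : (sq j (r + 1)).2.2 = decide ((j + 1 + (a:ℤ)) % 2 = 0) := by
    unfold sq
    split_ifs with h
    · simp only
      symm
      rw [decide_eq_false_iff_not]
      omega
    · simp only
      symm
      rw [decide_eq_true_eq]
      omega
  unfold sg
  rw [d1, d2]
  rcases Int.emod_two_eq_zero_or_one (j + 1 + (a:ℤ)) with h0 | h1
  · simp only [h0]
    cases ω (sq j r) <;> cases ω (sq j (r+1)) <;> simp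
  · simp only [h1]
    cases ω (sq j r) <;> cases ω (sq j (r+1)) <;> simp

/-- **independence**, finitely many indices -/
theorem indep_cross {a b : ℕ} (ha : Odd a) (hb : Odd b) (S : Finset (Fin 3 × ℕ))
    (d : Fin 3 × ℕ → ℤ) :
    perc.real (SCross a b ∩ {ω | ∀ i ∈ S, DD a b ω i = d i}) =
      perc.real (SCross a b) * perc.real {ω | ∀ i ∈ S, DD a b ω i = d i} := by
  classical
  obtain ⟨k, hk⟩ := id ha
  set c : Fin 3 × ℕ → ℤ := fun i => (((tl a b (ph i)).filter (fun t => t.1 % 2 = 0)).card : ℤ)
    with hc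
  by_cases hneg : ∀ i ∈ S, 0 ≤ c i - d i
  · -- the values
    set v : ℤ × Bool → ℕ := fun ι => if h : ∃ i ∈ S, ph i = ι then (c h.choose - d h.choose).toNat
      else 0 with hv
    have hvi : ∀ i ∈ S, (v (ph i) : ℤ) = c i - d i := by
      intro i hi
      have hex : ∃ i' ∈ S, ph i' = ph i := ⟨i, hi, rfl⟩
      have he : hex.choose = i := ph_inj hex.choose_spec.2
      rw [hv]
      simp only
      rw [dif_pos hex, he, Int.toNat_of_nonneg (hneg i hi)]
    have hcan : Can (S.image ph) := by
      intro ι hι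
      rw [Finset.mem_image] at hι
      obtain ⟨i, _, rfl⟩ := hι
      unfold ph
      intro h
      split_ifs at h ⊢
      · rfl
      · rfl
      · simp only at h; omega
    have hE : {ω | ∀ i ∈ S, DD a b ω i = d i} =
        (fun ω : Conf => fun i => ω ((sh ((k:ℤ) + 1) (-(k:ℤ))).symm i)) ⁻¹'
          (EV a b (S.image ph) v) := by
      ext ω
      simp only [Set.mem_ofPred_eq, Set.mem_preimage, EV]
      constructor
      · intro h ι hι
        rw [Finset.mem_image] at hι
        obtain ⟨i, hi, rfl⟩ := hι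
        have h1 := NN_add a b k hk ω i
        have h2 := hvi i hi
        have h3 := h i hi
        have : (NN a b (shc k ω) (ph i) : ℤ) = v (ph i) := by
          rw [h2]
          simp only [hc]
          linarith
        exact_mod_cast this
      · intro h i hi
        have h1 := NN_add a b k hk ω i
        have h2 := hvi i hi
        have h3 : NN a b (shc k ω) (ph i) = v (ph i) := h (ph i) (Finset.mem_image_of_mem _ hi)
        rw [h3, h2] at h1
        simp only [hc] at h1
        linarith
    rw [hE, scross_preimage k hk b, ← Set.preimage_inter, perc_map, perc_map, perc_map, cross_eq31]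
    exact indep_slit' ha hb (S.image ph) hcan v
  · have hE : {ω | ∀ i ∈ S, DD a b ω i = d i} = ∅ := by
      rw [Set.eq_empty_iff_forall_notMem]
      intro ω hω
      apply hneg
      intro i hi
      have h1 := NN_add a b k hk ω i
      have h2 : DD a b ω i = d i := hω i hi
      have h3 : (0:ℤ) ≤ NN a b (shc k ω) (ph i) := by positivity
      simp only [hc]
      linarith
    rw [hE]
    simp

theorem measurable_DD (a b : ℕ) (i : Fin 3 × ℕ) : Measurable (fun ω : Conf => DD a b ω i) := by
  unfold DD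
  refine Finset.measurable_sum _ fun j _ => ?_
  have h : ∀ e : Edge, Measurable (fun ω : Conf => sg ω e) := by
    intro e
    have h2 : (fun ω : Conf => sg ω e) =
        (fun c : Bool => if c = true then (if e.2.2 = true then (-1:ℤ) else 1) else 0) ∘
          (fun ω : Conf => ω e) := rfl
    rw [h2]
    exact (measurable_of_countable _).comp (measurable_pi_apply _)
  exact (h _).sub (h _)

theorem measurableSet_scross {a b : ℕ} (ha : Odd a) (hb : Odd b) : MeasurableSet (SCross a b) := by
  obtain ⟨k, hk⟩ := id ha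
  rw [scross_preimage k hk b, cross_eq31]
  refine measurableSet_slitCross ha hb |>.preimage ?_
  exact measurable_pi_lambda _ fun i => measurable_pi_apply _

/-- **the crossing event is independent of all the differences** -/
theorem indep_all {a b : ℕ} (ha : Odd a) (hb : Odd b) (B : Set (Fin 3 × ℕ → ℤ))
    (hB : MeasurableSet B) :
    perc.real (SCross a b ∩ {ω | (fun i => DD a b ω i) ∈ B}) =
      perc.real (SCross a b) * perc.real {ω | (fun i => DD a b ω i) ∈ B} := by
  classical
  set C : Set (Set Conf) := {E | ∃ (S : Finset (Fin 3 × ℕ)) (d : Fin 3 × ℕ → ℤ),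
    E = {ω | ∀ i ∈ S, DD a b ω i = d i}} with hC
  have hmC : ∀ E ∈ C, MeasurableSet E := by
    rintro E ⟨S, d, rfl⟩
    have : {ω | ∀ i ∈ S, DD a b ω i = d i} = ⋂ i ∈ S, (fun ω : Conf => DD a b ω i) ⁻¹' {d i} := by
      ext ω; simp
    rw [this]
    exact Finset.measurableSet_biInter _ fun i _ =>
      measurable_DD a b i (measurableSet_singleton _)
  have hpi : IsPiSystem C := by
    rintro E ⟨S, d, rfl⟩ E' ⟨S', d', rfl⟩ ⟨ω0, h1, h2⟩
    refine ⟨S ∪ S', fun i => DD a b ω0 i, ?_⟩
    ext ω
    simp only [Set.mem_inter_iff, Set.mem_ofPred_eq, Finset.mem_union] at h1 h2 ⊢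
    constructor
    · rintro ⟨g1, g2⟩ i (hi | hi)
      · rw [g1 i hi, h1 i hi]
      · rw [g2 i hi, h2 i hi]
    · intro g
      exact ⟨fun i hi => by rw [g i (Or.inl hi), h1 i hi],
        fun i hi => by rw [g i (Or.inr hi), h2 i hi]⟩
  have hyp : IndepSets {SCross a b} C perc := by
    rw [IndepSets_iff]
    rintro t1 t2 h1 ⟨S, d, rfl⟩
    rw [Set.mem_singleton_iff] at h1
    subst h1
    have h := indep_cross ha hb S d
    have e1 : ∀ E : Set Conf, perc E = ENNReal.ofReal (perc.real E) := fun E => by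
      rw [measureReal_def, ENNReal.ofReal_toReal (measure_ne_top _ _)]
    rw [e1, h, e1 (SCross a b), e1 {ω | ∀ i ∈ S, DD a b ω i = d i},
      ENNReal.ofReal_mul measureReal_nonneg]
  have hind := IndepSets.indep' (μ := perc) (by
    intro s hs
    rw [Set.mem_singleton_iff] at hs
    rw [hs]
    exact measurableSet_scross ha hb) hmC (IsPiSystem.singleton (SCross a b)) hpi hyp
  rw [Indep_iff] at hind
  have hm : MeasurableSet[MeasurableSpace.generateFrom C] {ω | (fun i => DD a b ω i) ∈ B} := by
    have h1 : @Measurable Conf (Fin 3 × ℕ → ℤ) (MeasurableSpace.generateFrom C) _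
        (fun ω => fun i => DD a b ω i) := by
      refine @measurable_pi_lambda Conf (Fin 3 × ℕ) (fun _ => ℤ) (MeasurableSpace.generateFrom C)
        _ _ fun i => ?_
      refine @measurable_to_countable' ℤ Conf _ _ (MeasurableSpace.generateFrom C) _ fun n => ?_
      refine MeasurableSpace.measurableSet_generateFrom ⟨{i}, fun _ => n, ?_⟩
      ext ω
      simp
    exact h1 hB
  have h := hind (SCross a b) {ω | (fun i => DD a b ω i) ∈ B}
    (MeasurableSpace.measurableSet_generateFrom (Set.mem_singleton _)) hm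
  rw [measureReal_def, h, ENNReal.toReal_mul, measureReal_def, measureReal_def]

end Q292.Env
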