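import Pool.Agent.Q292.Env.Cross
import Pool.Agent.Q292.Env.Dens

/-!
At `p = 1/2` the crossing event of the slit strip is independent of the numbers of the tiles of the
double rows in which the Temperley-Lieb generator acts.
-/

set_option autoImplicit false

namespace Q292.Env

open Pool.Agent.H988R2.Perc Finset MeasureTheory ProbabilityTheory unitInterval Filter Topology
open Pool.Agent.H980R3.Slit
open scoped ENNReal

/-- the parameter `1/2` -/
noncomputable def hlf : I := ⟨1/2, by norm_num, by norm_num⟩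

theorem hlf_val : ((hlf : I) : ℝ) = 1/2 := rfl

theorem coin_eq : coin = bernoulliMeasure true false hlf := by
  ext s _
  have key : ∀ b : Bool, coin {b} = bernoulliMeasure true false hlf {b} := by
    intro b
    rw [T23.coin_singleton]
    have h1 : (bernoulliMeasure true false hlf).real {b} = 1/2 := by
      cases b
      · rw [bernoulliMeasure_real_apply_of_notMem_of_mem _ (measurableSet_singleton _) (by simp)
          (by simp), hlf_val]
        norm_num
      · rw [bernoulliMeasure_real_apply_of_mem_of_notMem _ (measurableSet_singleton _) (by simp)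
          (by simp), hlf_val]
    have h2 : bernoulliMeasure true false hlf {b} =
        ENNReal.ofReal ((bernoulliMeasure true false hlf).real {b}) := by
      rw [measureReal_def, ENNReal.ofReal_toReal (measure_ne_top _ _)]
    rw [h2, h1, ENNReal.ofReal_div_of_pos (by norm_num)]
    simp
  have h : coin = bernoulliMeasure true false hlf := by
    refine Measure.ext_of_singleton ?_
    exact key
  rw [h]

theorem perc_eq_percP : perc = percP (fun _ => hlf) := by
  unfold perc percP
  rw [coin_eq]

/-! ### the tiles -/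

/-- the tile index of an edge -/
def cI (e : Edge) : ℤ := if e.2.2 = true then e.1 - e.2.1 else e.1 - e.2.1 + 1
/-- the row of an edge -/
def cR (e : Edge) : ℤ := e.1 + e.2.1 - 1

theorem cI_edgeOf (i r : ℤ) : cI (edgeOf i r) = i := by
  unfold edgeOf cI
  split_ifs <;> simp_all <;> omega

theorem cR_edgeOf (i r : ℤ) : cR (edgeOf i r) = r := by
  unfold edgeOf cR
  split_ifs <;> simp_all <;> omega

/-- the tiles of a group: the double row `ι.1` of the lower strip, of the upper left strip
(`ι.2 = false`) or of the upper right strip (`ι.2 = true`) -/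
noncomputable def tl (a b : ℕ) (ι : ℤ × Bool) : Finset (ℤ × ℤ) :=
  if ι.1 < 0 then Finset.Icc 1 ((a:ℤ) + b + 1) ×ˢ Finset.Icc (2 * ι.1) (2 * ι.1 + 1)
  else if ι.2 = true then Finset.Icc ((a:ℤ) + 2) ((a:ℤ) + b + 1) ×ˢ Finset.Icc (2 * ι.1) (2 * ι.1 + 1)
  else Finset.Icc 1 (a:ℤ) ×ˢ Finset.Icc (2 * ι.1) (2 * ι.1 + 1)

theorem mem_tl {a b : ℕ} {ι : ℤ × Bool} {t : ℤ × ℤ} : t ∈ tl a b ι ↔
    t.2 / 2 = ι.1 ∧ ((ι.1 < 0 ∧ 1 ≤ t.1 ∧ t.1 ≤ (a:ℤ) + b + 1) ∨
      (0 ≤ ι.1 ∧ ι.2 = true ∧ (a:ℤ) + 2 ≤ t.1 ∧ t.1 ≤ (a:ℤ) + b + 1) ∨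
      (0 ≤ ι.1 ∧ ι.2 = false ∧ 1 ≤ t.1 ∧ t.1 ≤ (a:ℤ))) := by
  unfold tl
  split_ifs with h1 h2
  · simp only [Finset.mem_product, Finset.mem_Icc]
    constructor
    · rintro ⟨⟨h3, h4⟩, h5, h6⟩
      exact ⟨by omega, Or.inl ⟨h1, h3, h4⟩⟩
    · rintro ⟨h3, h4 | h4 | h4⟩
      · exact ⟨⟨h4.2.1, h4.2.2⟩, by omega, by omega⟩
      · omega
      · omega
  · simp only [Finset.mem_product, Finset.mem_Icc]
    constructor
    · rintro ⟨⟨h3, h4⟩, h5, h6⟩
      exact ⟨by omega, Or.inr (Or.inl ⟨by omega, h2, h3, h4⟩)⟩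
    · rintro ⟨h3, h4 | h4 | h4⟩
      · omega
      · exact ⟨⟨h4.2.2.1, h4.2.2.2⟩, by omega, by omega⟩
      · rw [h2] at h4
        simp at h4
  · simp only [Finset.mem_product, Finset.mem_Icc]
    constructor
    · rintro ⟨⟨h3, h4⟩, h5, h6⟩
      exact ⟨by omega, Or.inr (Or.inr ⟨by omega, by simpa using h2, h3, h4⟩)⟩
    · rintro ⟨h3, h4 | h4 | h4⟩
      · omega
      · exact absurd h4.2.1 h2
      · exact ⟨⟨h4.2.2.1, h4.2.2.2⟩, by omega, by omega⟩

/-- the generator acts in the tile -/
def aB (t : ℤ × ℤ) (ω : Conf) : Bool :=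
  if t.1 % 2 = 1 then ω (edgeOf t.1 t.2) else !(ω (edgeOf t.1 t.2))

/-- the number of the tiles of the group in which the generator acts -/
noncomputable def NN (a b : ℕ) (ω : Conf) (ι : ℤ × Bool) : ℕ := ((tl a b ι).filter (fun t => aB t ω = true)).card

theorem NN_le (a b : ℕ) (ω : Conf) (ι : ℤ × Bool) : NN a b ω ι ≤ (tl a b ι).card :=
  Finset.card_filter_le _ _

/-- canonical indices: in the lower strip there is only one group for each double row -/
def Can (S : Finset (ℤ × Bool)) : Prop := ∀ ι ∈ S, ι.1 < 0 → ι.2 = false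

/-- the edges of the groups of `S` -/
noncomputable def FS (a b : ℕ) (S : Finset (ℤ × Bool)) : Finset Edge :=
  S.biUnion fun ι => (tl a b ι).image fun t => edgeOf t.1 t.2

theorem mem_FS {a b : ℕ} {S : Finset (ℤ × Bool)} {i r : ℤ} :
    edgeOf i r ∈ FS a b S ↔ ∃ ι ∈ S, (i, r) ∈ tl a b ι := by
  unfold FS
  simp only [Finset.mem_biUnion, Finset.mem_image]
  constructor
  · rintro ⟨ι, hι, t, ht, he⟩
    obtain ⟨h1, h2⟩ := T23.edgeOf_inj he
    refine ⟨ι, hι, ?_⟩
    rw [← h1, ← h2]
    exact ht
  · rintro ⟨ι, hι, ht⟩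
    exact ⟨ι, hι, (i, r), ht, rfl⟩

/-- the group of an edge -/
def gr (a : ℕ) (e : Edge) : ℤ × Bool := (cR e / 2, decide (0 ≤ cR e ∧ (a:ℤ) + 2 ≤ cI e))

theorem gr_of_mem {a b : ℕ} {ι : ℤ × Bool} (hc : ι.1 < 0 → ι.2 = false) {t : ℤ × ℤ}
    (ht : t ∈ tl a b ι) : gr a (edgeOf t.1 t.2) = ι := by
  rw [mem_tl] at ht
  unfold gr
  rw [cR_edgeOf, cI_edgeOf]
  obtain ⟨h1, h2⟩ := ht
  apply Prod.ext
  · exact h1
  · simp only
    rcases h2 with h2 | h2 | h2
    · rw [hc h2.1]
      simp only [decide_eq_false_iff_not]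
      omega
    · rw [h2.2.1]
      simp only [decide_eq_true_eq]
      omega
    · rw [h2.2.1]
      simp only [decide_eq_false_iff_not]
      omega

/-- the environment with the weights `x` in the groups of `S`, and `1/2` elsewhere -/
noncomputable def pS (a b : ℕ) (S : Finset (ℤ × Bool)) (x : ℤ × Bool → I) (e : Edge) : I :=
  if e ∈ FS a b S then (if cI e % 2 = 1 then x (gr a e) else σ (x (gr a e))) else hlf

open Classical in
theorem lay_pS (a b : ℕ) (S : Finset (ℤ × Bool)) (hS : Can S) (x : ℤ × Bool → I) :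
    Lay a b (pS a b S x) (fun k => if (k, false) ∈ S then x (k, false) else hlf)
      (fun k => if (k, false) ∈ S then x (k, false) else hlf)
      (fun k => if (k, true) ∈ S then x (k, true) else hlf) := by
  constructor
  · intro i r h1 h2 h3
    by_cases hk : (r / 2, false) ∈ S
    · have hm : (i, r) ∈ tl a b (r / 2, false) := by
        rw [mem_tl]; exact ⟨rfl, Or.inl ⟨by simp only; omega, h1, h2⟩⟩
      have hg := gr_of_mem (ι := (r/2, false)) (fun _ => rfl) hm
      unfold pS
      simp only at hg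
      rw [if_pos (mem_FS.2 ⟨_, hk, hm⟩), cI_edgeOf, hg, if_pos hk]
      split_ifs <;> simp [symm_val]
    · have hm : edgeOf i r ∉ FS a b S := by
        rw [mem_FS]
        rintro ⟨ι, hι, ht⟩
        have hg := gr_of_mem (hS ι hι) ht
        unfold gr at hg
        rw [cR_edgeOf, cI_edgeOf] at hg
        apply hk
        rw [← hg] at hι
        have : decide (0 ≤ (i, r).2 ∧ (a:ℤ) + 2 ≤ (i, r).1) = false := by
          simp only [decide_eq_false_iff_not]; omega
        rw [this] at hι
        exact hι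
      unfold pS
      rw [if_neg hm, if_neg hk, hlf_val]
      split_ifs <;> norm_num
  · intro i r h1 h2 h3
    by_cases hk : (r / 2, false) ∈ S
    · have hm : (i, r) ∈ tl a b (r / 2, false) := by
        rw [mem_tl]; exact ⟨rfl, Or.inr (Or.inr ⟨by simp only; omega, rfl, h1, h2⟩)⟩
      have hg := gr_of_mem (ι := (r/2, false)) (fun _ => rfl) hm
      unfold pS
      simp only at hg
      rw [if_pos (mem_FS.2 ⟨_, hk, hm⟩), cI_edgeOf, hg, if_pos hk]
      split_ifs <;> simp [symm_val]
    · have hm : edgeOf i r ∉ FS a b S := by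
        rw [mem_FS]
        rintro ⟨ι, hι, ht⟩
        have hg := gr_of_mem (hS ι hι) ht
        unfold gr at hg
        rw [cR_edgeOf, cI_edgeOf] at hg
        apply hk
        rw [← hg] at hι
        have : decide (0 ≤ (i, r).2 ∧ (a:ℤ) + 2 ≤ (i, r).1) = false := by
          simp only [decide_eq_false_iff_not]; omega
        rw [this] at hι
        exact hι
      unfold pS
      rw [if_neg hm, if_neg hk, hlf_val]
      split_ifs <;> norm_num
  · intro i r h1 h2 h3
    by_cases hk : (r / 2, true) ∈ S
    · have hm : (i, r) ∈ tl a b (r / 2, true) := by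
        rw [mem_tl]; exact ⟨rfl, Or.inr (Or.inl ⟨by simp only; omega, rfl, h1, h2⟩)⟩
      have hg := gr_of_mem (ι := (r/2, true)) (fun h => by simp only at h; omega) hm
      unfold pS
      simp only at hg
      rw [if_pos (mem_FS.2 ⟨_, hk, hm⟩), cI_edgeOf, hg, if_pos hk]
      split_ifs <;> simp [symm_val]
    · have hm : edgeOf i r ∉ FS a b S := by
        rw [mem_FS]
        rintro ⟨ι, hι, ht⟩
        have hg := gr_of_mem (hS ι hι) ht
        unfold gr at hg
        rw [cR_edgeOf, cI_edgeOf] at hg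
        apply hk
        rw [← hg] at hι
        have : decide (0 ≤ (i, r).2 ∧ (a:ℤ) + 2 ≤ (i, r).1) = true := by
          simp only [decide_eq_true_eq]; omega
        rw [this] at hι
        exact hι
      unfold pS
      rw [if_neg hm, if_neg hk, hlf_val]
      split_ifs <;> norm_num

theorem freq_out (S : Finset (ℤ × Bool)) (f : ℕ → ℤ × Bool) (hf : Function.Injective f) :
    ∃ᶠ n : ℕ in atTop, f n ∉ S := by
  refine Eventually.frequently ?_
  have h1 : (f ⁻¹' (S : Set (ℤ × Bool))).Finite := S.finite_toSet.preimage hf.injOn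
  have h2 := h1.compl_mem_cofinite
  rw [Nat.cofinite_eq_atTop] at h2
  exact h2

/-- the crossing probability in the environment `pS` -/
theorem cross_pS {a b : ℕ} (ha : Odd a) (hb : Odd b) (S : Finset (ℤ × Bool)) (hS : Can S)
    (x : ℤ × Bool → I) :
    (percP (pS a b S x)).real (SlitCross a b) = perc.real (SlitCross a b) := by
  classical
  refine percP_slitCross (lay_pS a b S hS x) ?_ ?_ ?_ ha hb
  · refine ⟨1/2, by norm_num, (freq_out S (fun n => (-(n:ℤ)-1, false)) ?_).mono fun n hn => ?_⟩
    · intro m n h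
      simp only [Prod.mk.injEq, and_true] at h
      omega
    · simp only at hn ⊢
      rw [if_neg hn, hlf_val]
      norm_num
  · refine ⟨1/2, by norm_num, (freq_out S (fun n => ((n:ℤ), false)) ?_).mono fun n hn => ?_⟩
    · intro m n h
      simp only [Prod.mk.injEq, and_true] at h
      omega
    · simp only at hn ⊢
      rw [if_neg hn, hlf_val]
      norm_num
  · refine ⟨1/2, by norm_num, (freq_out S (fun n => ((n:ℤ), true)) ?_).mono fun n hn => ?_⟩
    · intro m n h
      simp only [Prod.mk.injEq, and_true] at h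
      omega
    · simp only at hn ⊢
      rw [if_neg hn, hlf_val]
      norm_num

/-- the density of a bit -/
noncomputable def fb (y : ℝ) (c : Bool) : ℝ := if c = true then 2 * y else 2 * (1 - y)

theorem fb_nonneg {y : ℝ} (hy : y ∈ Set.Icc (0:ℝ) 1) (c : Bool) : 0 ≤ fb y c := by
  unfold fb
  split_ifs
  · linarith [hy.1]
  · linarith [hy.2]

theorem ber_density (y : I) : bernoulliMeasure true false y =
    (bernoulliMeasure true false hlf).withDensity (fun c => ENNReal.ofReal (fb y c)) := by
  refine Measure.ext_of_singleton fun c => ?_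
  rw [withDensity_apply _ (measurableSet_singleton c)]
  rw [Measure.restrict_singleton, lintegral_smul_measure, lintegral_dirac]
  have h2 : ∀ z : I, bernoulliMeasure true false z {c} =
      ENNReal.ofReal ((bernoulliMeasure true false z).real {c}) := by
    intro z
    rw [measureReal_def, ENNReal.ofReal_toReal (measure_ne_top _ _)]
  rw [h2, h2, smul_eq_mul, ← ENNReal.ofReal_mul measureReal_nonneg]
  congr 1
  cases c
  · rw [bernoulliMeasure_real_apply_of_notMem_of_mem _ (measurableSet_singleton _) (by simp)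
      (by simp), bernoulliMeasure_real_apply_of_notMem_of_mem _ (measurableSet_singleton _)
      (by simp) (by simp), hlf_val]
    unfold fb
    simp
    ring
  · rw [bernoulliMeasure_real_apply_of_mem_of_notMem _ (measurableSet_singleton _) (by simp)
      (by simp), bernoulliMeasure_real_apply_of_mem_of_notMem _ (measurableSet_singleton _)
      (by simp) (by simp), hlf_val]
    unfold fb
    simp
    try ring

theorem percP_dens (a b : ℕ) (S : Finset (ℤ × Bool)) (x : ℤ × Bool → I) :
    percP (pS a b S x) = perc.withDensity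
      (fun ω => ∏ e ∈ FS a b S, ENNReal.ofReal (fb (pS a b S x e) (ω e))) := by
  rw [perc_eq_percP]
  unfold percP
  refine infinitePi_withDensity _ _ (FS a b S)
    (fun e c => ENNReal.ofReal (fb (pS a b S x e) c)) ?_ ?_
  · intro e _
    exact ber_density _
  · intro e he
    unfold pS
    rw [if_neg he]

end Q292.Env
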