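import Pool.Agent.Q292.Env.Indep

/-!
The independence: the polynomial argument.
-/

set_option autoImplicit false

namespace Q292.Env

open Pool.Agent.H988R2.Perc Finset MeasureTheory ProbabilityTheory unitInterval Filter Topology
open Pool.Agent.H980R3.Slit
open scoped ENNReal

theorem dens_eq (a b : ℕ) (S : Finset (ℤ × Bool)) (hS : Can S) (x : ℤ × Bool → I) (ω : Conf) :
    ∏ e ∈ FS a b S, ENNReal.ofReal (fb (pS a b S x e) (ω e)) =
      ENNReal.ofReal (∏ ι ∈ S, ((2 * (x ι : ℝ)) ^ (NN a b ω ι) *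
        (2 * (1 - (x ι : ℝ))) ^ ((tl a b ι).card - NN a b ω ι))) := by
  classical
  rw [← ENNReal.ofReal_prod_of_nonneg (fun e _ => fb_nonneg (pS a b S x e).2 _)]
  congr 1
  unfold FS
  rw [Finset.prod_biUnion]
  · refine Finset.prod_congr rfl fun ι hι => ?_
    rw [Finset.prod_image]
    · have h1 : ∀ t ∈ tl a b ι, fb (pS a b S x (edgeOf t.1 t.2)) (ω (edgeOf t.1 t.2)) =
          if aB t ω = true then 2 * (x ι : ℝ) else 2 * (1 - (x ι : ℝ)) := by
        intro t ht
        have hg := gr_of_mem (hS ι hι) ht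
        have hm : edgeOf t.1 t.2 ∈ FS a b S := mem_FS.2 ⟨ι, hι, ht⟩
        unfold pS
        rw [if_pos hm, cI_edgeOf, hg]
        unfold fb aB
        by_cases h2 : t.1 % 2 = 1
        · simp only [h2, if_true]
        · simp only [h2, if_false, symm_val]
          cases ω (edgeOf t.1 t.2) <;> simp
      rw [Finset.prod_congr rfl h1, Finset.prod_ite, Finset.prod_const, Finset.prod_const]
      congr 2
      have := Finset.card_filter_add_card_filter_not (s := tl a b ι) (fun t => aB t ω = true)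
      unfold NN
      omega
    · intro t _ t' _ h
      obtain ⟨h1, h2⟩ := T23.edgeOf_inj h
      exact Prod.ext h1 h2
  · intro ι hι ι' hι' hne
    rw [Function.onFun, Finset.disjoint_left]
    intro e he he'
    rw [Finset.mem_image] at he he'
    obtain ⟨t, ht, rfl⟩ := he
    obtain ⟨t', ht', h⟩ := he'
    apply hne
    rw [← gr_of_mem (hS ι hι) ht, ← gr_of_mem (hS ι' hι') ht', h]

/-- the event that the numbers of the groups of `S` are given by `v` -/
def EV (a b : ℕ) (S : Finset (ℤ × Bool)) (v : ℤ × Bool → ℕ) : Set Conf :=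
  {ω | ∀ ι ∈ S, NN a b ω ι = v ι}

theorem measurable_NN (a b : ℕ) (ι : ℤ × Bool) : Measurable (fun ω : Conf => NN a b ω ι) := by
  have h : (fun ω : Conf => NN a b ω ι) =
      fun ω => ∑ t ∈ tl a b ι, (if aB t ω = true then 1 else 0) := by
    funext ω
    unfold NN
    rw [Finset.card_filter]
  rw [h]
  refine Finset.measurable_sum _ fun t _ => ?_
  have h2 : (fun ω : Conf => if aB t ω = true then 1 else 0) =
      (fun c : Bool => if (if t.1 % 2 = 1 then c else !c) = true then (1:ℕ) else 0) ∘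
        (fun ω : Conf => ω (edgeOf t.1 t.2)) := rfl
  rw [h2]
  exact (measurable_of_countable _).comp (measurable_pi_apply _)

theorem measurableSet_EV (a b : ℕ) (S : Finset (ℤ × Bool)) (v : ℤ × Bool → ℕ) :
    MeasurableSet (EV a b S v) := by
  have : EV a b S v = ⋂ ι ∈ S, (fun ω : Conf => NN a b ω ι) ⁻¹' {v ι} := by
    ext ω
    simp [EV]
  rw [this]
  exact Finset.measurableSet_biInter _ fun ι _ => measurable_NN a b ι (measurableSet_singleton _)

theorem measurableSet_slitCross {a b : ℕ} (ha : Odd a) (hb : Odd b) :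
    MeasurableSet (SlitCross a b) := by
  have h4 := t_C04 t_C01 t_C02 t_C03
  have h5 := t_C05 t_C01 t_C02 t_C03
  rw [← iUnion_winS h4 h5 t_C06 t_C07 ha hb]
  refine MeasurableSet.iUnion fun M => ?_
  rw [C10.winS_eq]
  refine Finset.measurableSet_biUnion _ fun p hp => ?_
  obtain ⟨⟨h1, h2, h3⟩, _⟩ := C10.mem_good3.1 hp
  exact (t_C08 a b M p.1 p.2.1 p.2.2 h1 h2 h3).1

/-- the weight of the values `v` -/
noncomputable def wv (a b : ℕ) (S : Finset (ℤ × Bool)) (x : ℤ × Bool → I) (v : ℤ × Bool → ℕ) : ℝ :=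
  ∏ ι ∈ S, ((2 * (x ι : ℝ)) ^ (v ι) * (2 * (1 - (x ι : ℝ))) ^ ((tl a b ι).card - v ι))

theorem percP_EV (a b : ℕ) (S : Finset (ℤ × Bool)) (hS : Can S) (x : ℤ × Bool → I)
    (v : ℤ × Bool → ℕ) {A : Set Conf} (hA : MeasurableSet A) :
    (percP (pS a b S x)).real (A ∩ EV a b S v) = wv a b S x v * perc.real (A ∩ EV a b S v) := by
  have hm := hA.inter (measurableSet_EV a b S v)
  have hw : 0 ≤ wv a b S x v := by
    refine Finset.prod_nonneg fun ι _ => mul_nonneg (pow_nonneg ?_ _) (pow_nonneg ?_ _)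
    · linarith [(x ι).2.1]
    · linarith [(x ι).2.2]
  rw [measureReal_def, percP_dens, withDensity_apply _ hm]
  have h1 : ∫⁻ ω in A ∩ EV a b S v, ∏ e ∈ FS a b S, ENNReal.ofReal (fb (pS a b S x e) (ω e)) ∂perc
      = ∫⁻ _ in A ∩ EV a b S v, ENNReal.ofReal (wv a b S x v) ∂perc := by
    refine setLIntegral_congr_fun hm fun ω hω => ?_
    rw [dens_eq a b S hS x ω]
    congr 1
    refine Finset.prod_congr rfl fun ι hι => ?_
    rw [hω.2 ι hι]
  rw [h1, setLIntegral_const, ENNReal.toReal_mul, ENNReal.toReal_ofReal hw, measureReal_def]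

/-- the possible values -/
noncomputable def VV (a b : ℕ) (S : Finset (ℤ × Bool)) : Finset ((ℤ × Bool) →₀ ℕ) :=
  S.finsupp fun ι => Finset.range ((tl a b ι).card + 1)

theorem percP_sum (a b : ℕ) (S : Finset (ℤ × Bool)) (p : Edge → I) {A : Set Conf}
    (hA : MeasurableSet A) :
    (percP p).real A = ∑ v ∈ VV a b S, (percP p).real (A ∩ EV a b S v) := by
  rw [← measureReal_biUnion_finset]
  · congr 1
    ext ω
    simp only [Set.mem_iUnion, Set.mem_inter_iff, exists_prop]
    constructor
    · intro h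
      refine ⟨Finsupp.indicator S (fun ι _ => NN a b ω ι), ?_, h, ?_⟩
      · unfold VV
        rw [Finset.mem_finsupp_iff]
        refine ⟨Finsupp.support_indicator_subset _ _, fun ι hι => ?_⟩
        rw [Finsupp.indicator_of_mem hι, Finset.mem_range]
        exact Nat.lt_succ_of_le (NN_le a b ω ι)
      · intro ι hι
        rw [Finsupp.indicator_of_mem hι]
    · rintro ⟨v, _, h, _⟩
      exact h
  · intro v hv v' hv' hne
    rw [Function.onFun, Set.disjoint_left]
    rintro ω ⟨_, h1⟩ ⟨_, h2⟩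
    apply hne
    have hv := (Finset.mem_finsupp_iff.1 (Finset.mem_coe.1 hv)).1
    have hv' := (Finset.mem_finsupp_iff.1 (Finset.mem_coe.1 hv')).1
    ext ι
    by_cases hι : ι ∈ S
    · rw [← h1 ι hι, ← h2 ι hι]
    · rw [Finsupp.notMem_support_iff.1 (fun h => hι (hv h)),
        Finsupp.notMem_support_iff.1 (fun h => hι (hv' h))]
  · intro v _
    exact hA.inter (measurableSet_EV a b S v)

/-- the weight with the odds `t` -/
noncomputable def odds (t : ℝ) (ht : 0 < t) : I :=
  ⟨t / (1 + t), by positivity, by rw [div_le_one (by positivity)]; linarith⟩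

theorem wv_odds (a b : ℕ) (S : Finset (ℤ × Bool)) (t : ℤ × Bool → ℝ) (ht : ∀ ι, 0 < t ι)
    (v : (ℤ × Bool) →₀ ℕ) (hv : v ∈ VV a b S) :
    wv a b S (fun ι => odds (t ι) (ht ι)) v =
      (∏ ι ∈ S, (2 / (1 + t ι)) ^ (tl a b ι).card) * ∏ ι ∈ S, t ι ^ (v ι) := by
  unfold wv
  rw [← Finset.prod_mul_distrib]
  refine Finset.prod_congr rfl fun ι hι => ?_
  have hv := (Finset.mem_finsupp_iff.1 hv).2 ι hι
  rw [Finset.mem_range] at hv
  have h1 : (2 * ((odds (t ι) (ht ι) : I) : ℝ)) = 2 / (1 + t ι) * t ι := by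
    unfold odds
    simp only
    ring
  have h2 : (2 * (1 - ((odds (t ι) (ht ι) : I) : ℝ))) = 2 / (1 + t ι) := by
    have := ht ι
    unfold odds
    simp only
    field_simp
    ring
  rw [h1, h2, mul_pow, mul_right_comm, ← pow_add]
  congr 2
  omega

/-- **independence** -/
theorem indep_slit {a b : ℕ} (ha : Odd a) (hb : Odd b) (S : Finset (ℤ × Bool)) (hS : Can S)
    (v : (ℤ × Bool) →₀ ℕ) (hv : v ∈ VV a b S) :
    perc.real (SlitCross a b ∩ EV a b S v) =
      perc.real (SlitCross a b) * perc.real (EV a b S v) := by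
  classical
  have hA := measurableSet_slitCross ha hb
  set c : ((ℤ × Bool) →₀ ℕ) → ℝ := fun v => perc.real (SlitCross a b ∩ EV a b S v) -
    perc.real (SlitCross a b) * perc.real (EV a b S v) with hc
  set P : MvPolynomial (ℤ × Bool) ℝ := ∑ v ∈ VV a b S, MvPolynomial.monomial v (c v) with hP
  have hP0 : P = 0 := by
    refine MvPolynomial.funext_set (fun _ => Set.Ioi (0:ℝ)) (fun _ => Set.Ioi_infinite 0) ?_
    intro t ht
    have ht' : ∀ ι, 0 < t ι := fun ι => ht ι (Set.mem_univ _)
    rw [hP, map_sum, map_zero]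
    simp only [MvPolynomial.eval_monomial]
    set x : ℤ × Bool → I := fun ι => odds (t ι) (ht' ι) with hx
    have s1 := percP_sum a b S (pS a b S x) hA
    have s2 := percP_sum a b S (pS a b S x) MeasurableSet.univ
    rw [cross_pS ha hb S hS x] at s1
    rw [probReal_univ] at s2
    simp only [Set.univ_inter] at s2
    have s3 : ∀ v ∈ VV a b S, (percP (pS a b S x)).real (SlitCross a b ∩ EV a b S v) =
        (∏ ι ∈ S, (2 / (1 + t ι)) ^ (tl a b ι).card) * (∏ ι ∈ S, t ι ^ (v ι)) *
          perc.real (SlitCross a b ∩ EV a b S v) := by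
      intro v hv
      rw [percP_EV a b S hS x v hA, hx, wv_odds a b S t ht' v hv]
    have s4 : ∀ v ∈ VV a b S, (percP (pS a b S x)).real (EV a b S v) =
        (∏ ι ∈ S, (2 / (1 + t ι)) ^ (tl a b ι).card) * (∏ ι ∈ S, t ι ^ (v ι)) *
          perc.real (EV a b S v) := by
      intro v hv
      have := percP_EV a b S hS x v MeasurableSet.univ
      simp only [Set.univ_inter] at this
      rw [this, hx, wv_odds a b S t ht' v hv]
    rw [Finset.sum_congr rfl s3] at s1
    rw [Finset.sum_congr rfl s4] at s2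
    have hC : (∏ ι ∈ S, (2 / (1 + t ι)) ^ (tl a b ι).card) ≠ 0 := by
      refine Finset.prod_ne_zero_iff.2 fun ι _ => pow_ne_zero _ ?_
      have := ht' ι
      positivity
    have s5 : (∏ ι ∈ S, (2 / (1 + t ι)) ^ (tl a b ι).card) *
        ∑ v ∈ VV a b S, c v * ∏ ι ∈ S, t ι ^ (v ι) = 0 := by
      have e : ∀ v : (ℤ × Bool) →₀ ℕ, c v * ∏ ι ∈ S, t ι ^ (v ι) =
          (∏ ι ∈ S, t ι ^ (v ι)) * perc.real (SlitCross a b ∩ EV a b S v) -
            perc.real (SlitCross a b) * ((∏ ι ∈ S, t ι ^ (v ι)) * perc.real (EV a b S v)) := by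
        intro v
        rw [hc]
        ring
      simp_rw [e]
      have s1' : (∏ ι ∈ S, (2 / (1 + t ι)) ^ (tl a b ι).card) *
          ∑ v ∈ VV a b S, (∏ ι ∈ S, t ι ^ (v ι)) * perc.real (SlitCross a b ∩ EV a b S v) =
          perc.real (SlitCross a b) := by
        rw [Finset.mul_sum]
        simp only [← mul_assoc]
        exact s1.symm
      have s2' : (∏ ι ∈ S, (2 / (1 + t ι)) ^ (tl a b ι).card) *
          ∑ v ∈ VV a b S, (∏ ι ∈ S, t ι ^ (v ι)) * perc.real (EV a b S v) = 1 := by
        rw [Finset.mul_sum]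
        simp only [← mul_assoc]
        exact s2.symm
      rw [Finset.sum_sub_distrib, ← Finset.mul_sum, mul_sub, s1', mul_left_comm, s2']
      ring
    have s6 := (mul_eq_zero.1 s5).resolve_left hC
    rw [← s6]
    refine Finset.sum_congr rfl fun v hv => ?_
    congr 1
    have hsub := (Finset.mem_finsupp_iff.1 hv).1
    rw [Finsupp.prod_of_support_subset v hsub _ (fun _ _ => pow_zero _)]
  have h1 : MvPolynomial.coeff v P = c v := by
    rw [hP, MvPolynomial.coeff_sum]
    simp only [MvPolynomial.coeff_monomial]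
    rw [Finset.sum_ite_eq' (VV a b S) v c, if_pos hv]
  rw [hP0, MvPolynomial.coeff_zero] at h1
  have : perc.real (SlitCross a b ∩ EV a b S v) -
    perc.real (SlitCross a b) * perc.real (EV a b S v) = 0 := h1.symm
  linarith

/-- independence, arbitrary values -/
theorem indep_slit' {a b : ℕ} (ha : Odd a) (hb : Odd b) (S : Finset (ℤ × Bool)) (hS : Can S)
    (v : ℤ × Bool → ℕ) :
    perc.real (SlitCross a b ∩ EV a b S v) =
      perc.real (SlitCross a b) * perc.real (EV a b S v) := by
  classical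
  by_cases hv : ∀ ι ∈ S, v ι ≤ (tl a b ι).card
  · have h := indep_slit ha hb S hS (Finsupp.indicator S (fun ι _ => v ι)) (by
      unfold VV
      rw [Finset.mem_finsupp_iff]
      refine ⟨Finsupp.support_indicator_subset _ _, fun ι hι => ?_⟩
      rw [Finsupp.indicator_of_mem hι, Finset.mem_range]
      exact Nat.lt_succ_of_le (hv ι hι))
    have e : EV a b S (Finsupp.indicator S (fun ι _ => v ι)) = EV a b S v := by
      ext ω
      unfold EV
      simp only [Set.mem_ofPred_eq]
      constructor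
      · intro h ι hι
        rw [h ι hι, Finsupp.indicator_of_mem hι]
      · intro h ι hι
        rw [h ι hι, Finsupp.indicator_of_mem hι]
    rwa [e] at h
  · have e : EV a b S v = ∅ := by
      rw [Set.eq_empty_iff_forall_notMem]
      intro ω hω
      apply hv
      intro ι hι
      rw [← hω ι hι]
      exact NN_le a b ω ι
    rw [e]
    simp

end Q292.Env
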