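import Pool.Agent.Q292.Env.Stat
import Pool.Agent.H988R2.Perc.T23
import Pool.Agent.H988R2.Perc.T24

/-!
The law of the state of the strip in a layered environment: the tiles of the `j`-th double row have
the weight `c j`. It is the weighted sum over the bits; and it converges to the stationary vector.
-/

set_option autoImplicit false

namespace Q292.Env

open Pool.Agent.H988R2.Perc Finset
open Pool.Agent.H988R2.Perc.T23 (bits SS row mem_row mem_SS SS_succ row_succ row_succ' bits_insert
  bits_insert_self bits_not_mem actBit_insert fwdS_congr bwdS_congr X_congr)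
open Pool.Agent.H988R2.Perc.T20 (mapDomain_lin)

/-- probability that the bit of the tile `i` is `true` in a double row of weight `y` -/
noncomputable def bp (y : ℝ) (i : ℕ) : ℝ := if i % 2 = 1 then y else 1 - y

/-- weight of the set `t` of true bits among the bits `S` -/
noncomputable def wt (c : ℕ → ℝ) (S t : Finset (ℕ × ℕ)) : ℝ :=
  ∏ j ∈ S, if j ∈ t then bp (c (j.1 / 2)) j.2 else 1 - bp (c (j.1 / 2)) j.2

/-- the law of the state after `M` double rows of weights `c 0, …, c (M-1)` -/
noncomputable def lawY (L : ℕ) (c : ℕ → ℝ) : ℕ → St →₀ ℂ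
  | 0 => Finsupp.single St.bot 1
  | M+1 => TY L (c M) (lawY L c M)

theorem wt_insert_not (c : ℕ → ℝ) (S t : Finset (ℕ × ℕ)) (j : ℕ × ℕ) (hj : j ∉ S) (ht : t ⊆ S) :
    wt c (insert j S) t = (1 - bp (c (j.1 / 2)) j.2) * wt c S t := by
  unfold wt
  rw [prod_insert hj, if_neg (fun h => hj (ht h))]

theorem wt_insert_mem (c : ℕ → ℝ) (S t : Finset (ℕ × ℕ)) (j : ℕ × ℕ) (hj : j ∉ S) :
    wt c (insert j S) (insert j t) = bp (c (j.1 / 2)) j.2 * wt c S t := by
  unfold wt
  rw [prod_insert hj, if_pos (mem_insert_self _ _)]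
  congr 1
  refine prod_congr rfl fun a ha => ?_
  have : a ≠ j := fun h => hj (h ▸ ha)
  simp [this]

theorem tileY_sum (y : ℝ) (i : ℕ) {ι : Type*} (P : Finset ι) (R : ι → St) (w : ι → ℂ) :
    tileY y i (∑ t ∈ P, Finsupp.single (R t) (w t)) =
      ∑ t ∈ P, (Finsupp.single (R t) (((1 - y : ℝ) : ℂ) * w t) +
        Finsupp.single (St.act i (R t)) ((y : ℂ) * w t)) := by
  unfold tileY
  rw [Finsupp.mapDomain_finsetSum, smul_sum, smul_sum, ← Finset.sum_add_distrib]
  simp only [Finsupp.mapDomain_single, Finsupp.smul_single, smul_eq_mul]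

theorem tile_stepY (c : ℕ → ℝ) (S : Finset (ℕ × ℕ)) (k i : ℕ) (hS : (k, i) ∉ S)
    (Y : Finset (ℕ × ℕ) → St) (hY : ∀ t, Y (insert (k, i) t) = Y t) :
    tileY (c (k / 2)) i (∑ t ∈ S.powerset, Finsupp.single (Y t) ((wt c S t : ℝ) : ℂ)) =
      ∑ t ∈ (insert (k, i) S).powerset,
        Finsupp.single (if actBit (bits t) k i then St.act i (Y t) else Y t)
          ((wt c (insert (k, i) S) t : ℝ) : ℂ) := by
  rw [tileY_sum, Finset.sum_powerset_insert hS, ← Finset.sum_add_distrib]
  apply Finset.sum_congr rfl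
  intro t ht
  have hts : t ⊆ S := Finset.mem_powerset.mp ht
  have hnt : (k, i) ∉ t := fun h => hS (hts h)
  rw [hY, wt_insert_not c S t _ hS hts, wt_insert_mem c S t _ hS]
  have h1 : actBit (bits t) k i = if i % 2 = 1 then false else true := by
    simp [actBit, bits_not_mem t k i hnt]
  have h2 : actBit (bits (insert (k, i) t)) k i = if i % 2 = 1 then true else false := by
    simp [actBit, bits_insert_self t k i]
  rw [h1, h2]
  unfold bp
  by_cases h : i % 2 = 1
  · simp [h]
  · simp only [h, if_false, Bool.false_eq_true, if_true]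
    rw [add_comm]
    push_cast
    congr 2
    ring

theorem fwd_stepY (c : ℕ → ℝ) (n : ℕ) (S : Finset (ℕ × ℕ)) (k : ℕ)
    (hS : ∀ i, 1 ≤ i → i ≤ n → (k, i) ∉ S)
    (Y : Finset (ℕ × ℕ) → St) (hY : ∀ i t, 1 ≤ i → i ≤ n → Y (insert (k, i) t) = Y t) :
    fwdY (c (k / 2)) n (∑ t ∈ S.powerset, Finsupp.single (Y t) ((wt c S t : ℝ) : ℂ)) =
      ∑ t ∈ (S ∪ row k n).powerset,
        Finsupp.single (fwdS n (actBit (bits t) k) (Y t)) ((wt c (S ∪ row k n) t : ℝ) : ℂ) := by
  induction n with
  | zero =>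
    have : S ∪ row k 0 = S := by
      ext j; simp only [mem_union, mem_row]; constructor
      · rintro (h | h)
        · exact h
        · omega
      · exact Or.inl
    simp [fwdY, fwdS, this]
  | succ n ih =>
    simp only [fwdY]
    rw [ih (fun i h1 h2 => hS i h1 (by omega)) (fun i t h1 h2 => hY i t h1 (by omega)), row_succ]
    have hn : (k, n+1) ∉ S ∪ row k n := by
      simp only [mem_union, mem_row, not_or]
      exact ⟨hS (n+1) (by omega) le_rfl, by omega⟩
    rw [tile_stepY c (S ∪ row k n) k (n+1) hn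
      (fun t => fwdS n (actBit (bits t) k) (Y t)) (by
        intro t
        rw [hY (n+1) t (by omega) le_rfl]
        exact fwdS_congr n _ _ _ (fun i _ h2 => actBit_insert t k i (n+1) (by omega)))]
    rfl

theorem bwd_stepY (c : ℕ → ℝ) (n : ℕ) (S : Finset (ℕ × ℕ)) (k : ℕ)
    (hS : ∀ i, 1 ≤ i → i ≤ n → (k, i) ∉ S)
    (Y : Finset (ℕ × ℕ) → St) (hY : ∀ i t, 1 ≤ i → i ≤ n → Y (insert (k, i) t) = Y t) :
    bwdY (c (k / 2)) n (∑ t ∈ S.powerset, Finsupp.single (Y t) ((wt c S t : ℝ) : ℂ)) =
      ∑ t ∈ (S ∪ row k n).powerset,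
        Finsupp.single (bwdS n (actBit (bits t) k) (Y t)) ((wt c (S ∪ row k n) t : ℝ) : ℂ) := by
  induction n generalizing S Y with
  | zero =>
    have : S ∪ row k 0 = S := by
      ext j; simp only [mem_union, mem_row]; constructor
      · rintro (h | h)
        · exact h
        · omega
      · exact Or.inl
    simp [bwdY, bwdS, this]
  | succ n ih =>
    simp only [bwdY]
    rw [tile_stepY c S k (n+1) (hS (n+1) (by omega) le_rfl) Y
      (fun t => hY (n+1) t (by omega) le_rfl)]
    rw [ih (insert (k, n+1) S) ?_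
      (fun t => if actBit (bits t) k (n+1) then St.act (n+1) (Y t) else Y t) ?_]
    · rw [row_succ']
      rfl
    · intro i h1 h2 h
      rw [mem_insert] at h
      rcases h with h | h
      · simp only [Prod.mk.injEq] at h; omega
      · exact hS i h1 (by omega) h
    · intro i t h1 h2
      rw [hY i t h1 (by omega), actBit_insert t k (n+1) i (by omega)]

theorem mapDomain_sumY {ι : Type*} (g : St → St) (P : Finset ι) (R : ι → St) (w : ι → ℂ) :
    Finsupp.mapDomain g (∑ t ∈ P, Finsupp.single (R t) (w t)) =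
      ∑ t ∈ P, Finsupp.single (g (R t)) (w t) := by
  rw [Finsupp.mapDomain_finsetSum]
  simp only [Finsupp.mapDomain_single]

theorem law_eqY (L : ℕ) (c : ℕ → ℝ) (M : ℕ) : lawY L c M =
    ∑ t ∈ (SS L M).powerset,
      Finsupp.single (X L (actBit (bits t)) M) ((wt c (SS L M) t : ℝ) : ℂ) := by
  induction M with
  | zero =>
    have : SS L 0 = ∅ := by simp [SS]
    simp [lawY, this, X, wt]
  | succ M ih =>
    rw [lawY, ih]
    unfold TY
    rw [mapDomain_sumY]
    have e0 : c M = c (2*M/2) := by congr 1; omega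
    have e1 : c M = c ((2*M+1)/2) := by congr 1; omega
    rw [e0, fwd_stepY c L (SS L M) (2*M) (fun i _ _ h => by rw [mem_SS] at h; simp at h)
        (fun t => St.ins 0 (X L (actBit (bits t)) M)) ?_, ← e0, e1,
      bwd_stepY c L (SS L M ∪ row (2*M) L) (2*M+1)
        (fun i _ _ h => by
          rw [mem_union, mem_SS, mem_row] at h
          simp only at h
          omega)
        (fun t => fwdS L (actBit (bits t) (2*M)) (St.ins 0 (X L (actBit (bits t)) M))) ?_,
      mapDomain_sumY, ← SS_succ]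
    · rfl
    · intro i t _ _
      have e1 : ∀ k i', k ≠ 2*M+1 → actBit (bits (insert (2*M+1, i) t)) k i' =
          actBit (bits t) k i' := by
        intro k i' hk
        simp [actBit, bits, hk]
      rw [X_congr L _ (actBit (bits t)) M (fun k i' hk _ _ => e1 k i' (by omega)),
        fwdS_congr L _ (actBit (bits t) (2*M)) _ (fun i' _ _ => e1 _ i' (by omega))]
    · intro i t _ _
      have e1 : ∀ k i', k ≠ 2*M → actBit (bits (insert (2*M, i) t)) k i' =
          actBit (bits t) k i' := by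
        intro k i' hk
        simp [actBit, bits, hk]
      rw [X_congr L _ (actBit (bits t)) M (fun k i' hk _ _ => e1 k i' (by omega))]

/-! ### contraction -/

open T24

theorem dob_tileY (y m : ℝ) (hm : 0 ≤ m) (h1 : m ≤ y) (h2 : m ≤ 1 - y) (i : ℕ) :
    Dob (tileY y i) (good i) m where
  pos := hm
  le := by linarith
  add f g := by
    unfold tileY
    rw [Finsupp.mapDomain_add, smul_add, smul_add]
    abel
  smul c f := tileY_smul y i c f
  mass f := by
    unfold tileY
    rw [T24.mass_add, T24.mass_smul, T24.mass_smul, T24.mass_mapDomain]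
    push_cast
    ring
  dec f := by
    have hy0 : 0 ≤ y := by linarith
    have hy1 : 0 ≤ 1 - y := by linarith
    by_cases hi : i % 2 = 0
    · have e : tileY y i f - (m : ℂ) • Finsupp.mapDomain (good i) f =
          ((1 - y : ℝ) : ℂ) • f + ((y - m : ℝ) : ℂ) • Finsupp.mapDomain (St.act i) f := by
        have : good i = St.act i := by funext R; simp [good, hi]
        rw [this]
        unfold tileY
        push_cast
        rw [sub_smul (y : ℂ)]
        abel
      rw [e]
      refine (nrm_add_le _ _).trans ?_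
      rw [nrm_smul, nrm_smul, Complex.norm_real, Complex.norm_real, Real.norm_eq_abs,
        Real.norm_eq_abs, abs_of_nonneg hy1, abs_of_nonneg (by linarith : 0 ≤ y - m)]
      have := mul_le_mul_of_nonneg_left (nrm_mapDomain_le (St.act i) f)
        (by linarith : 0 ≤ y - m)
      linarith
    · have e : tileY y i f - (m : ℂ) • Finsupp.mapDomain (good i) f =
          ((1 - y - m : ℝ) : ℂ) • f + (y : ℂ) • Finsupp.mapDomain (St.act i) f := by
        have : good i = id := by funext R; simp [good, hi]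
        rw [this, Finsupp.mapDomain_id]
        unfold tileY
        push_cast
        rw [sub_smul (1 - (y : ℂ))]
        abel
      rw [e]
      refine (nrm_add_le _ _).trans ?_
      rw [nrm_smul, nrm_smul, Complex.norm_real, Complex.norm_real, Real.norm_eq_abs,
        Real.norm_eq_abs, abs_of_nonneg (by linarith : 0 ≤ 1 - y - m), abs_of_nonneg hy0]
      have := mul_le_mul_of_nonneg_left (nrm_mapDomain_le (St.act i) f) hy0
      linarith

theorem dob_fwdY (y m : ℝ) (hm : 0 ≤ m) (h1 : m ≤ y) (h2 : m ≤ 1 - y) (L : ℕ) :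
    Dob (fwdY y L) (gfwd L) (m^L) := by
  induction L with
  | zero =>
    have h := dob_map (fun R => R)
    have e : (Finsupp.mapDomain (fun R : St => R) : (St →₀ ℂ) → (St →₀ ℂ)) = fwdY y 0 := by
      funext f
      exact Finsupp.mapDomain_id
    rw [e] at h
    have e2 : gfwd 0 = (fun R => R) := rfl
    rw [e2, pow_zero]
    exact h
  | succ L ih =>
    have h := (dob_tileY y m hm h1 h2 (L+1)).comp ih
    rw [pow_succ, mul_comm]
    exact h

theorem dob_bwdY (y m : ℝ) (hm : 0 ≤ m) (h1 : m ≤ y) (h2 : m ≤ 1 - y) (L : ℕ) :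
    Dob (bwdY y L) (gbwd L) (m^L) := by
  induction L with
  | zero =>
    have h := dob_map (fun R => R)
    have e : (Finsupp.mapDomain (fun R : St => R) : (St →₀ ℂ) → (St →₀ ℂ)) = bwdY y 0 := by
      funext f
      exact Finsupp.mapDomain_id
    rw [e] at h
    have e2 : gbwd 0 = (fun R => R) := rfl
    rw [e2, pow_zero]
    exact h
  | succ L ih =>
    have h := ih.comp (dob_tileY y m hm h1 h2 (L+1))
    rw [pow_succ]
    exact h

theorem dob_TY (y m : ℝ) (hm : 0 ≤ m) (h1 : m ≤ y) (h2 : m ≤ 1 - y) (L : ℕ) :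
    Dob (TY L y) (gT L) (m^L * m^L) := by
  have h := (dob_map (St.cap 0)).comp
    ((dob_bwdY y m hm h1 h2 L).comp ((dob_fwdY y m hm h1 h2 L).comp (dob_map (St.ins 0))))
  rw [one_mul, mul_one] at h
  exact h

theorem BdV_tileY {y : ℝ} {K i : ℕ} (hi : i + 2 < K) {f : St →₀ ℂ} (hf : BdV K f) :
    BdV K (tileY y i f) :=
  (hf.smul _).add ((hf.map fun _ h => bd_act hi h).smul _)

theorem BdV_fwdY {y : ℝ} {K L : ℕ} (hi : L + 2 < K) {f : St →₀ ℂ} (hf : BdV K f) :
    BdV K (fwdY y L f) := by
  induction L with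
  | zero => exact hf
  | succ L ih => exact BdV_tileY hi (ih (by omega))

theorem BdV_bwdY {y : ℝ} {K L : ℕ} (hi : L + 2 < K) {f : St →₀ ℂ} (hf : BdV K f) :
    BdV K (bwdY y L f) := by
  induction L generalizing f with
  | zero => exact hf
  | succ L ih => exact ih (by omega) (BdV_tileY hi hf)

theorem BdV_TY {y : ℝ} {L : ℕ} {f : St →₀ ℂ} (hf : BdV (L+1) f) : BdV (L+1) (TY L y f) :=
  BdV.map (BdV_bwdY (by omega) (BdV_fwdY (by omega) (hf.map fun _ h => bd_ins h)))
    fun _ h => bd_cap (by omega) h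

theorem contractY {y m : ℝ} (hm0 : 0 ≤ m) (h1 : m ≤ y) (h2 : m ≤ 1 - y) {L : ℕ} (hL : Odd L)
    {f : St →₀ ℂ} (hf : BdV (L+1) f) (hm : mass f = 0) :
    nrm (TY L y f) ≤ (1 - m^L * m^L) * nrm f := by
  have h := (dob_TY y m hm0 h1 h2 L).dec f
  rw [mapDomain_gT hL hf, hm, Finsupp.single_zero, smul_zero, sub_zero] at h
  exact h

/-- the ellipticity of a weight -/
noncomputable def el (y : ℝ) : ℝ := min y (1 - y)

theorem el_nonneg {y : ℝ} (h : y ∈ Set.Icc (0:ℝ) 1) : 0 ≤ el y :=
  le_min h.1 (by linarith [h.2])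

theorem el_le_one {y : ℝ} (h : y ∈ Set.Icc (0:ℝ) 1) : el y ≤ 1 :=
  (min_le_left _ _).trans h.2

/-- the normalised stationary vector -/
noncomputable def sv (L : ℕ) : St →₀ ℂ :=
  (mass (Psi (List.replicate L 1 ++ [0])))⁻¹ • Psi (List.replicate L 1 ++ [0])

theorem TY_sv (L : ℕ) (hL : Odd L) (y : ℝ) : TY L y (sv L) = sv L := by
  unfold sv
  rw [TY_smul, stationaryY y L hL]

theorem law_diff (L : ℕ) (hL : Odd L) (hm : mass (Psi (List.replicate L 1 ++ [0])) ≠ 0)
    (hs : BdV (L+1) (Psi (List.replicate L 1 ++ [0])))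
    (c : ℕ → ℝ) (M : ℕ) (hc : ∀ j < M, c j ∈ Set.Icc (0:ℝ) 1) :
    nrm (lawY L c M + (-1 : ℂ) • sv L) ≤
        (∏ j ∈ range M, (1 - el (c j)^L * el (c j)^L)) *
          nrm (Finsupp.single St.bot 1 + (-1 : ℂ) • sv L) ∧
      BdV (L+1) (lawY L c M + (-1 : ℂ) • sv L) ∧ mass (lawY L c M + (-1 : ℂ) • sv L) = 0 := by
  have hw : mass (sv L) = 1 := by
    unfold sv
    rw [T24.mass_smul, inv_mul_cancel₀ hm]
  have hwB : BdV (L+1) (sv L) := hs.smul _
  induction M with
  | zero =>
    refine ⟨by simp [lawY], ?_, ?_⟩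
    · refine BdV.add ?_ (hwB.smul _)
      intro R hR a b h
      have : R = St.bot := by
        have := Finsupp.support_single_subset hR
        simpa using this
      subst this
      exact Or.inl h
    · rw [lawY, T24.mass_add, T24.mass_smul, T24.mass_single, hw]; ring
  | succ M ih =>
    obtain ⟨i1, i2, i3⟩ := ih (fun j hj => hc j (by omega))
    have hcM := hc M (by omega)
    have d := dob_TY (c M) (el (c M)) (el_nonneg hcM) (min_le_left _ _) (min_le_right _ _) L
    have e : lawY L c (M+1) + (-1 : ℂ) • sv L = TY L (c M) (lawY L c M + (-1 : ℂ) • sv L) := by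
      rw [lawY, d.add, d.smul, TY_sv L hL]
    rw [e]
    refine ⟨?_, BdV_TY i2, by rw [d.mass, i3]⟩
    refine (contractY (el_nonneg hcM) (min_le_left _ _) (min_le_right _ _) hL i2 i3).trans ?_
    rw [prod_range_succ, mul_comm (∏ j ∈ range M, _) _, mul_assoc]
    exact mul_le_mul_of_nonneg_left i1 (by linarith [d.le])

end Q292.Env
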