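import Pool.Agent.Q292.Env.Law
import Pool.Agent.H980R3.Slit.All

/-!
The measure of a layered environment: the probability of the window event of the slit strip.
-/

set_option autoImplicit false

namespace Q292.Env

open Pool.Agent.H988R2.Perc Finset MeasureTheory ProbabilityTheory unitInterval
open Pool.Agent.H988R2.Perc.T23 (bits SS mem_SS edgeOf_inj)
open Pool.Agent.H980R3.Slit

/-- bond percolation with independent edges, `p e` is the probability that `e` is open -/
noncomputable def percP (p : Edge → I) : Measure Conf :=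
  Measure.infinitePi (fun e : Edge => bernoulliMeasure true false (p e))

instance (p : Edge → I) : IsProbabilityMeasure (percP p) := by unfold percP; infer_instance

/-- `p` is a layered environment in the slit strip: `y0` in the lower strip, `y1` in the upper left
strip, `y2` in the upper right strip; `y (r / 2)` is the weight of the row `r` -/
structure Lay (a b : ℕ) (p : Edge → I) (y0 y1 y2 : ℤ → I) : Prop where
  past : ∀ i r : ℤ, 1 ≤ i → i ≤ a + b + 1 → r < 0 →
    (p (edgeOf i r) : ℝ) = if i % 2 = 1 then (y0 (r/2) : ℝ) else 1 - y0 (r/2)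
  left : ∀ i r : ℤ, 1 ≤ i → i ≤ a → 0 ≤ r →
    (p (edgeOf i r) : ℝ) = if i % 2 = 1 then (y1 (r/2) : ℝ) else 1 - y1 (r/2)
  right : ∀ i r : ℤ, a + 2 ≤ i → i ≤ a + b + 1 → 0 ≤ r →
    (p (edgeOf i r) : ℝ) = if i % 2 = 1 then (y2 (r/2) : ℝ) else 1 - y2 (r/2)

/-- a cylinder given by finitely many distinct edges -/
theorem percP_cyl (p : Edge → I) {J : Type*} [Fintype J] (e : J → Edge) (he : Function.Injective e)
    (b : J → Bool) :
    (percP p).real (⋂ j : J, (fun ω : Conf => ω (e j)) ⁻¹' {b j}) =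
      ∏ j : J, (if b j = true then (p (e j) : ℝ) else 1 - (p (e j) : ℝ)) := by
  have hind : ProbabilityTheory.iIndepFun (fun (e : Edge) (ω : Conf) => ω e) (percP p) := by
    unfold percP
    exact ProbabilityTheory.iIndepFun_infinitePi (X := fun _ b => b) (fun _ => measurable_id)
  have hind2 := hind.precomp he
  have h3 := hind2.measure_inter_preimage_eq_mul (Finset.univ : Finset J)
    (sets := fun j => {b j}) (fun j _ => measurableSet_singleton _)
  simp only [Finset.mem_univ, Set.iInter_true] at h3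
  rw [measureReal_def, h3, ENNReal.toReal_prod]
  refine Finset.prod_congr rfl fun j _ => ?_
  have h4 : (percP p) ((fun ω : Conf => ω (e j)) ⁻¹' {b j}) =
      bernoulliMeasure true false (p (e j)) {b j} := by
    have := (measurePreserving_eval_infinitePi
      (fun e : Edge => bernoulliMeasure true false (p e)) (e j)).measure_preimage
      (measurableSet_singleton (b j)).nullMeasurableSet
    unfold percP
    rw [← this]
  rw [h4, ← measureReal_def]
  cases hb : b j
  · rw [bernoulliMeasure_real_apply_of_notMem_of_mem _ (measurableSet_singleton _) (by simp)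
      (by simp)]
    simp
  · rw [bernoulliMeasure_real_apply_of_mem_of_notMem _ (measurableSet_singleton _) (by simp)
      (by simp)]
    simp

/-- weights of the double rows of the past window -/
noncomputable def cP (y : ℤ → I) (M : ℕ) (j : ℕ) : ℝ := (y ((j:ℤ) - M) : ℝ)
/-- weights of the double rows of the future window, read downwards -/
noncomputable def cF (y : ℤ → I) (M : ℕ) (j : ℕ) : ℝ := (y ((M:ℤ) - 1 - j) : ℝ)

theorem p_eP {a b : ℕ} {p : Edge → I} {y0 y1 y2 : ℤ → I} (hp : Lay a b p y0 y1 y2) (M : ℕ)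
    (j : ℕ × ℕ) (hj : j ∈ SS (a+b+1) M) :
    (p (T23.eP M j) : ℝ) = bp (cP y0 M (j.1 / 2)) j.2 := by
  rw [mem_SS] at hj
  unfold T23.eP bp cP
  rw [hp.past _ _ (by omega) (by omega) (by omega)]
  have e1 : ((j.1 : ℤ) - 2 * M) / 2 = ((j.1 / 2 : ℕ) : ℤ) - M := by omega
  rw [e1]
  have e2 : ((j.2 : ℤ) % 2 = 1) ↔ (j.2 % 2 = 1) := by omega
  simp only [e2]

theorem p_eF {a b : ℕ} {p : Edge → I} {y0 y1 y2 : ℤ → I} (hp : Lay a b p y0 y1 y2) (M : ℕ)
    (j : ℕ × ℕ) (hj : j ∈ SS a M) :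
    (p (T23.eF M j) : ℝ) = bp (cF y1 M (j.1 / 2)) j.2 := by
  rw [mem_SS] at hj
  unfold T23.eF bp cF
  rw [hp.left _ _ (by omega) (by omega) (by omega)]
  have e1 : (2 * (M : ℤ) - 1 - j.1) / 2 = (M : ℤ) - 1 - ((j.1 / 2 : ℕ) : ℤ) := by omega
  rw [e1]
  have e2 : ((j.2 : ℤ) % 2 = 1) ↔ (j.2 % 2 = 1) := by omega
  simp only [e2]

theorem p_eR {a b : ℕ} {p : Edge → I} {y0 y1 y2 : ℤ → I} (hp : Lay a b p y0 y1 y2)
    (ha : Odd a) (M : ℕ) (j : ℕ × ℕ) (hj : j ∈ SS b M) :
    (p (C08.eR a M j) : ℝ) = bp (cF y2 M (j.1 / 2)) j.2 := by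
  rw [mem_SS] at hj
  unfold C08.eR bp cF
  rw [hp.right _ _ (by omega) (by omega) (by omega)]
  have e1 : (2 * (M : ℤ) - 1 - j.1) / 2 = (M : ℤ) - 1 - ((j.1 / 2 : ℕ) : ℤ) := by omega
  rw [e1]
  have ha2 : a % 2 = 1 := Nat.odd_iff.mp ha
  have e2 : (((j.2 : ℤ) + (a + 1)) % 2 = 1) ↔ (j.2 % 2 = 1) := by omega
  simp only [e2]

theorem wt_eq (c : ℕ → ℝ) (S p : Finset (ℕ × ℕ)) :
    wt c S p = ∏ j : ↥S, (if decide (j.1 ∈ p) = true then bp (c (j.1.1 / 2)) j.1.2 else
      1 - bp (c (j.1.1 / 2)) j.1.2) := by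
  unfold wt
  rw [← Finset.prod_coe_sort]
  simp

theorem percP_cell3 {a b : ℕ} {p : Edge → I} {y0 y1 y2 : ℤ → I} (hp : Lay a b p y0 y1 y2)
    (ha : Odd a) (M : ℕ) (p0 p1 p2 : Finset (ℕ × ℕ)) (h0 : p0 ⊆ SS (a+b+1) M) (h1 : p1 ⊆ SS a M)
    (h2 : p2 ⊆ SS b M) :
    (percP p).real (cell3 a b M p0 p1 p2) = wt (cP y0 M) (SS (a+b+1) M) p0 *
      wt (cF y1 M) (SS a M) p1 * wt (cF y2 M) (SS b M) p2 := by
  rw [C08.cell3_eq a b M p0 p1 p2 h0 h1 h2, percP_cyl p _ (C08.ee3_inj a b M)]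
  rw [Fintype.prod_sum_type, Fintype.prod_sum_type, wt_eq, wt_eq, wt_eq]
  congr 1
  · congr 1
    · refine Finset.prod_congr rfl fun j _ => ?_
      simp only [C08.ee3, C08.bb3]
      rw [p_eP hp M j.1 j.2]
      try congr
    · refine Finset.prod_congr rfl fun j _ => ?_
      simp only [C08.ee3, C08.bb3]
      rw [p_eF hp M j.1 j.2]
      try congr
  · refine Finset.prod_congr rfl fun j _ => ?_
    simp only [C08.ee3, C08.bb3]
    rw [p_eR hp ha M j.1 j.2]
    try congr

open Classical in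
theorem pair3_sum (a b : ℕ) (P0 P1 P2 : Finset (Finset (ℕ × ℕ)))
    (R0 R1 R2 : Finset (ℕ × ℕ) → St) (w0 w1 w2 : Finset (ℕ × ℕ) → ℂ) :
    pair3 a b (∑ t ∈ P0, Finsupp.single (R0 t) (w0 t)) (∑ t ∈ P1, Finsupp.single (R1 t) (w1 t))
      (∑ t ∈ P2, Finsupp.single (R2 t) (w2 t)) =
    ∑ t0 ∈ P0, ∑ t1 ∈ P1, ∑ t2 ∈ P2,
      (if conn3 a b (R0 t0) (R1 t1) (R2 t2) then w0 t0 * w1 t1 * w2 t2 else 0) := by
  have key : ∀ f g h : St →₀ ℂ, pair3 a b f g h =
      Finsupp.linearCombination ℂ (fun R => Finsupp.linearCombination ℂ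
        (fun R1 => Finsupp.linearCombination ℂ
          (fun R2 => if conn3 a b R R1 R2 then (1:ℂ) else 0) h) g) f := by
    intro f g h
    unfold pair3
    rw [Finsupp.linearCombination_apply]
    apply Finsupp.sum_congr
    intro x _
    rw [Finsupp.linearCombination_apply, Finsupp.sum, Finsupp.sum, Finset.smul_sum]
    apply Finset.sum_congr rfl
    intro y _
    rw [Finsupp.linearCombination_apply, Finsupp.sum, Finsupp.sum, Finset.smul_sum,
      Finset.smul_sum]
    apply Finset.sum_congr rfl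
    intro w _
    simp only [smul_eq_mul]
    ring
  rw [key, map_sum]
  simp only [Finsupp.linearCombination_single, map_sum, smul_eq_mul, Finset.mul_sum]
  refine Finset.sum_congr rfl fun t0 _ => Finset.sum_congr rfl fun t1 _ =>
    Finset.sum_congr rfl fun t2 _ => ?_
  split_ifs <;> ring

open Classical in
theorem sum_good3Y (a b M : ℕ) (w0 w1 w2 : Finset (ℕ × ℕ) → ℂ) :
    (∑ t0 ∈ (SS (a+b+1) M).powerset, ∑ t1 ∈ (SS a M).powerset,
        ∑ t2 ∈ (SS b M).powerset,
        (if conn3 a b (X (a+b+1) (actBit (bits t0)) M) (X a (actBit (bits t1)) M)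
          (X b (actBit (bits t2)) M) then w0 t0 * w1 t1 * w2 t2 else 0)) =
      ∑ p ∈ C10.good3 a b M, w0 p.1 * w1 p.2.1 * w2 p.2.2 := by
  unfold C10.good3
  rw [Finset.sum_filter, Finset.sum_product]
  refine Finset.sum_congr rfl fun t0 _ => ?_
  rw [Finset.sum_product]

/-- the probability of the window event -/
theorem percP_winS {a b : ℕ} {p : Edge → I} {y0 y1 y2 : ℤ → I} (hp : Lay a b p y0 y1 y2)
    (ha : Odd a) (M : ℕ) :
    (((percP p).real (WinS a b M) : ℝ) : ℂ) =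
      pair3 a b (lawY (a+b+1) (cP y0 M) M) (lawY a (cF y1 M) M) (lawY b (cF y2 M) M) := by
  rw [law_eqY, law_eqY, law_eqY, pair3_sum, sum_good3Y, C10.winS_eq, measureReal_biUnion_finset]
  · push_cast
    refine Finset.sum_congr rfl fun p hp' => ?_
    obtain ⟨⟨h1, h2, h3⟩, _⟩ := C10.mem_good3.1 hp'
    rw [percP_cell3 hp ha M _ _ _ h1 h2 h3]
    push_cast
    rfl
  · intro p _ p' _ hne
    rw [Function.onFun, Set.disjoint_left]
    rintro ω ⟨h1, h2, h3⟩ ⟨h4, h5, h6⟩
    exact hne (Prod.ext (h1.symm.trans h4) (Prod.ext (h2.symm.trans h5) (h3.symm.trans h6)))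
  · intro p hp'
    obtain ⟨⟨h1, h2, h3⟩, _⟩ := C10.mem_good3.1 hp'
    exact (t_C08 a b M p.1 p.2.1 p.2.2 h1 h2 h3).1

end Q292.Env
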