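import Pool.Agent.H988R2.Perc.T20
import Pool.Agent.H988R2.Perc.T16

/-!
Stationarity of the homogeneous qKZ vector under the double-row transfer matrix with an arbitrary
spectral parameter: the weight `y` of the Temperley-Lieb generator in a tile is arbitrary.
-/

set_option autoImplicit false

namespace Q292.Env

open Pool.Agent.H988R2.Perc Finset
open Pool.Agent.H988R2.Perc.T20 (q4 mapDomain_lin)

/-- one tile: `(1 - y) + y e_i` -/
noncomputable def tileY (y : ℝ) (i : ℕ) (f : St →₀ ℂ) : St →₀ ℂ :=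
  ((1 - y : ℝ) : ℂ) • f + (y : ℂ) • Finsupp.mapDomain (St.act i) f

/-- tiles `1, 2, …, L` -/
noncomputable def fwdY (y : ℝ) : ℕ → (St →₀ ℂ) → (St →₀ ℂ)
  | 0, f => f
  | L+1, f => tileY y (L+1) (fwdY y L f)

/-- tiles `L, L-1, …, 1` -/
noncomputable def bwdY (y : ℝ) : ℕ → (St →₀ ℂ) → (St →₀ ℂ)
  | 0, f => f
  | L+1, f => bwdY y L (tileY y (L+1) f)

/-- the double-row transfer matrix -/
noncomputable def TY (L : ℕ) (y : ℝ) (f : St →₀ ℂ) : St →₀ ℂ :=
  Finsupp.mapDomain (St.cap 0) (bwdY y L (fwdY y L (Finsupp.mapDomain (St.ins 0) f)))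

theorem tileY_smul (y : ℝ) (i : ℕ) (c : ℂ) (f : St →₀ ℂ) :
    tileY y i (c • f) = c • tileY y i f := by
  unfold tileY
  rw [mapDomain_lin, smul_add, smul_comm, smul_comm ((y : ℝ) : ℂ) c]

theorem fwdY_smul (y : ℝ) (L : ℕ) (c : ℂ) (f : St →₀ ℂ) :
    fwdY y L (c • f) = c • fwdY y L f := by
  induction L with
  | zero => rfl
  | succ L ih => simp only [fwdY]; rw [ih, tileY_smul]

theorem bwdY_smul (y : ℝ) (L : ℕ) (c : ℂ) (f : St →₀ ℂ) :
    bwdY y L (c • f) = c • bwdY y L f := by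
  induction L generalizing f with
  | zero => rfl
  | succ L ih => simp only [bwdY]; rw [tileY_smul, ih]

theorem TY_smul (L : ℕ) (y : ℝ) (c : ℂ) (f : St →₀ ℂ) : TY L y (c • f) = c • TY L y f := by
  unfold TY
  rw [mapDomain_lin, fwdY_smul, bwdY_smul, mapDomain_lin]

/-! ### the spectral parameter -/

theorem q_im : q.im = Real.sqrt 3 / 2 := rfl

theorem den_ne (y : ℝ) : (y : ℂ) + q^2 ≠ 0 := by
  intro h
  have h1 := congrArg Complex.im h
  have h2 := q_spec
  have h3 : q^2 = -q - 1 := by linear_combination h2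
  rw [h3] at h1
  simp [q_im] at h1

theorem num_ne (y : ℝ) : (1 : ℂ) + y * q^2 ≠ 0 := by
  intro h
  have h2 := q_spec
  have h3 : q^2 = -q - 1 := by linear_combination h2
  rw [h3] at h
  have h1 := congrArg Complex.im h
  simp [q_im] at h1
  subst h1
  simp at h

/-- the spectral parameter of the weight `y` -/
noncomputable def sp (y : ℝ) : ℂ := (1 + y * q^2) / (y + q^2)

theorem sp_ne (y : ℝ) : sp y ≠ 0 := div_ne_zero (num_ne y) (den_ne y)

theorem q_sub_ne : (1 : ℂ) - q ≠ 0 := sub_ne_zero.2 (fun h => q_ne_one h.symm)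

theorem sp_sub (y : ℝ) : sp y - q^2 = (1 - q) / (y + q^2) := by
  have h := den_ne y
  unfold sp
  rw [eq_div_iff h, sub_mul, div_mul_cancel₀ _ h]
  linear_combination -q4

theorem sp_sub_ne (y : ℝ) : sp y - q^2 ≠ 0 := by
  rw [sp_sub]
  exact div_ne_zero q_sub_ne (den_ne y)

/-- the weight of the generator -/
theorem sp_act (y : ℝ) : 1 - q^2 * sp y = y * (sp y - q^2) := by
  rw [sp_sub]
  have h := den_ne y
  have e : sp y * (y + q^2) = 1 + y * q^2 := by unfold sp; rw [div_mul_cancel₀ _ h]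
  have e2 : (1 - q^2 * sp y) * (y + q^2) = y * (1 - q) := by
    linear_combination (-q^2) * e - y * q4
  field_simp
  linear_combination e2

/-- the weight of the identity -/
theorem sp_id (y : ℝ) : q * (1 - sp y) = (1 - y) * (sp y - q^2) := by
  have h := den_ne y
  have e : sp y * (y + q^2) = 1 + y * q^2 := by unfold sp; rw [div_mul_cancel₀ _ h]
  have h1 := sp_act y
  have h2 := q_spec
  linear_combination (-1 : ℂ) * h1 + (1 - sp y) * h2

/-- moving `q² s` to the right through a `1` is a tile -/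
theorem move_right (y : ℝ) (u v : List ℂ) (h : Even (u.length + v.length)) :
    Psi (u ++ 1 :: (q^2 * sp y) :: v) = tileY y u.length (Psi (u ++ (q^2 * sp y) :: 1 :: v)) := by
  have h1 := Psi_exch u v (q^2 * sp y) 1 h
  have h3 := q_cube
  have h4 := q4
  have e1 : q * (q^2 * sp y) - q^2 * 1 = sp y - q^2 := by linear_combination sp y * h3
  have e2 : q * 1 - q^2 * (q^2 * sp y) = (1 - y) * (sp y - q^2) := by
    rw [← sp_id]
    linear_combination (-sp y) * h4
  have e3 : (1 : ℂ) - q^2 * sp y = y * (sp y - q^2) := sp_act y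
  rw [e1, e2, e3] at h1
  have hne := sp_sub_ne y
  have h5 := congrArg (fun f => (sp y - q^2)⁻¹ • f) h1
  simp only [smul_smul, inv_mul_cancel₀ hne, one_smul, smul_add] at h5
  rw [h5]
  unfold tileY
  congr 2
  · push_cast
    field_simp
  · field_simp

/-- moving `q / s` to the left through a `1` is a tile -/
theorem move_left (y : ℝ) (u v : List ℂ) (h : Even (u.length + v.length)) :
    Psi (u ++ (q * (sp y)⁻¹) :: 1 :: v) = tileY y u.length (Psi (u ++ 1 :: (q * (sp y)⁻¹) :: v)) := by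
  have h1 := Psi_exch u v 1 (q * (sp y)⁻¹) h
  have h3 := q_cube
  have h4 := q4
  have hs := sp_ne y
  have hq := q_ne_zero
  have e1 : q * 1 - q^2 * (q * (sp y)⁻¹) = q * (sp y)⁻¹ * (sp y - q^2) := by
    have : (sp y)⁻¹ * sp y = 1 := inv_mul_cancel₀ hs
    linear_combination (-q) * this
  have e2 : q * (q * (sp y)⁻¹) - q^2 * 1 = (1 - y) * (q * (sp y)⁻¹ * (sp y - q^2)) := by
    have : (sp y)⁻¹ * sp y = 1 := inv_mul_cancel₀ hs
    have k := sp_id y
    linear_combination (q * (sp y)⁻¹) * k + q^2 * this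
  have e3 : q * (sp y)⁻¹ - 1 = y * (q * (sp y)⁻¹ * (sp y - q^2)) := by
    have : (sp y)⁻¹ * sp y = 1 := inv_mul_cancel₀ hs
    have k := sp_act y
    linear_combination (q * (sp y)⁻¹) * k + q^3 * this + h3
  rw [e1, e2, e3] at h1
  have hne : q * (sp y)⁻¹ * (sp y - q^2) ≠ 0 :=
    mul_ne_zero (mul_ne_zero hq (inv_ne_zero hs)) (sp_sub_ne y)
  have h5 := congrArg (fun f => (q * (sp y)⁻¹ * (sp y - q^2))⁻¹ • f) h1
  simp only [smul_smul, inv_mul_cancel₀ hne, one_smul, smul_add] at h5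
  have e4 : ∀ z : ℂ, (q * (sp y)⁻¹ * (sp y - q^2))⁻¹ * (z * (q * (sp y)⁻¹ * (sp y - q^2))) = z := by
    intro z
    rw [mul_comm z, inv_mul_cancel_left₀ hne]
  rw [e4, e4] at h5
  rw [h5]
  unfold tileY
  congr 2
  push_cast
  rfl

theorem fwd_eqY (y : ℝ) (L : ℕ) (hL : Odd L) (k : ℕ) (hk : k ≤ L) :
    Psi (sp y :: List.replicate k 1 ++ (q^2 * sp y) :: (List.replicate (L-k) 1 ++ [0])) =
      fwdY y k (Psi (sp y :: (q^2 * sp y) :: (List.replicate L 1 ++ [0]))) := by
  induction k with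
  | zero => simp [fwdY]
  | succ k ih =>
    have ih' := ih (by omega)
    simp only [fwdY]
    rw [← ih']
    obtain ⟨m, hm⟩ : ∃ m, L - k = m + 1 := ⟨L - k - 1, by omega⟩
    have hm' : L - (k+1) = m := by omega
    rw [hm, hm']
    have hu : (sp y :: List.replicate k (1:ℂ)).length = k + 1 := by simp
    have key := move_right y (sp y :: List.replicate k (1:ℂ)) (List.replicate m 1 ++ [0]) (by
      simp only [List.length_cons, List.length_replicate, List.length_append, List.length_nil]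
      obtain ⟨t, ht⟩ := hL
      exact ⟨t + 1, by omega⟩)
    rw [hu] at key
    have e1 : sp y :: List.replicate (k+1) (1:ℂ) ++ (q^2 * sp y) :: (List.replicate m 1 ++ [0])
        = (sp y :: List.replicate k (1:ℂ)) ++ 1 :: (q^2 * sp y) :: (List.replicate m 1 ++ [0]) := by
      rw [List.replicate_succ']; simp
    have e2 : sp y :: List.replicate k (1:ℂ) ++ (q^2 * sp y) :: (List.replicate (m+1) 1 ++ [0])
        = (sp y :: List.replicate k (1:ℂ)) ++ (q^2 * sp y) :: 1 :: (List.replicate m 1 ++ [0]) := by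
      rw [List.replicate_succ]; simp
    rw [e1, e2]
    exact key

theorem bwd_eqY (y : ℝ) (L : ℕ) (hL : Odd L) (k : ℕ) (hk : k ≤ L) :
    bwdY y k (Psi (sp y :: List.replicate k 1 ++
        (q * (sp y)⁻¹) :: (List.replicate (L-k) 1 ++ [0]))) =
      Psi (sp y :: (q * (sp y)⁻¹) :: (List.replicate L 1 ++ [0])) := by
  induction k with
  | zero => simp [bwdY]
  | succ k ih =>
    have ih' := ih (by omega)
    simp only [bwdY]
    rw [← ih']
    obtain ⟨m, hm⟩ : ∃ m, L - k = m + 1 := ⟨L - k - 1, by omega⟩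
    have hm' : L - (k+1) = m := by omega
    rw [hm, hm']
    have hu : (sp y :: List.replicate k (1:ℂ)).length = k + 1 := by simp
    have key := move_left y (sp y :: List.replicate k (1:ℂ)) (List.replicate m 1 ++ [0]) (by
      simp only [List.length_cons, List.length_replicate, List.length_append, List.length_nil]
      obtain ⟨t, ht⟩ := hL
      exact ⟨t + 1, by omega⟩)
    rw [hu] at key
    have e1 : sp y :: List.replicate (k+1) (1:ℂ) ++
          (q * (sp y)⁻¹) :: (List.replicate m 1 ++ [0])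
        = (sp y :: List.replicate k (1:ℂ)) ++ 1 :: (q * (sp y)⁻¹) ::
          (List.replicate m 1 ++ [0]) := by
      rw [List.replicate_succ']; simp
    have e2 : sp y :: List.replicate k (1:ℂ) ++
          (q * (sp y)⁻¹) :: (List.replicate (m+1) 1 ++ [0])
        = (sp y :: List.replicate k (1:ℂ)) ++ (q * (sp y)⁻¹) :: 1 ::
          (List.replicate m 1 ++ [0]) := by
      rw [List.replicate_succ]; simp
    rw [e1, e2]
    rw [key]

theorem fac_eval (x : ℂ) (L : ℕ) :
    fac x (List.replicate L 1 ++ [0]) = ((x - q^2) * (x - q^2))^L * (x * (-q^2)) := by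
  unfold fac
  rw [List.map_append, List.prod_append, List.map_replicate, List.prod_replicate]
  simp only [List.map_cons, List.map_nil, List.prod_cons, List.prod_nil, mul_one, mul_zero,
    sub_zero, zero_sub]

theorem fac_neY (y : ℝ) (L : ℕ) : fac (sp y) (List.replicate L 1 ++ [0]) ≠ 0 := by
  rw [fac_eval]
  exact mul_ne_zero (pow_ne_zero _ (mul_ne_zero (sp_sub_ne y) (sp_sub_ne y)))
    (mul_ne_zero (sp_ne y) (neg_ne_zero.mpr (pow_ne_zero _ q_ne_zero)))

theorem fac_const (s : ℂ) (hs : s ≠ 0) (L : ℕ) :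
    (q^2 * s)^(L+1) * s^(L+1) * fac (q * s⁻¹) (List.replicate L 1 ++ [0])
      = fac s (List.replicate L 1 ++ [0]) := by
  rw [fac_eval, fac_eval]
  have h3 := q_cube
  have hss : s * s⁻¹ = 1 := mul_inv_cancel₀ hs
  have e1 : (q^2 * s * s) * ((q * s⁻¹ - q^2) * (q * s⁻¹ - q^2)) = (s - q^2) * (s - q^2) := by
    have : s * (q * s⁻¹ - q^2) = -q^2 * (s - q^2) := by
      linear_combination q * hss - q * h3
    calc (q^2 * s * s) * ((q * s⁻¹ - q^2) * (q * s⁻¹ - q^2))
        = q^2 * (s * (q * s⁻¹ - q^2)) * (s * (q * s⁻¹ - q^2)) := by ring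
      _ = q^2 * (-q^2 * (s - q^2)) * (-q^2 * (s - q^2)) := by rw [this]
      _ = q^3 * q^3 * ((s - q^2) * (s - q^2)) := by ring
      _ = _ := by rw [h3]; ring
  have e2 : (q^2 * s * s) * (q * s⁻¹ * (-q^2)) = s * (-q^2) := by
    linear_combination (-(q^5) * s) * hss - (s * q^2) * h3
  calc (q^2 * s)^(L+1) * s^(L+1) * (((q * s⁻¹ - q^2) * (q * s⁻¹ - q^2))^L * (q * s⁻¹ * (-q^2)))
      = ((q^2 * s * s) * ((q * s⁻¹ - q^2) * (q * s⁻¹ - q^2)))^L *
        ((q^2 * s * s) * (q * s⁻¹ * (-q^2))) := by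
        rw [mul_pow (q^2 * s * s), mul_pow (q^2 * s) s L, pow_succ (q^2 * s) L, pow_succ s L]; ring
    _ = _ := by rw [e1, e2]

/-- **Stationarity for every spectral parameter.** -/
theorem stationaryY (y : ℝ) (L : ℕ) (hL : Odd L) :
    TY L y (Psi (List.replicate L 1 ++ [0])) = Psi (List.replicate L 1 ++ [0]) := by
  have hLe : Even (L + 1) := hL.add_one
  set v0 := Psi (List.replicate L 1 ++ [0]) with hv0
  set l0 : List ℂ := List.replicate L 1 ++ [0] with hl0
  set s := sp y with hsdef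
  have hlen : l0.length = L + 1 := by simp [hl0]
  have h4 := q4
  have h3 := q_cube
  have hqs := q_spec
  have hq := q_ne_zero
  have hs : s ≠ 0 := sp_ne y
  have hq2s : q^2 * s ≠ 0 := mul_ne_zero (pow_ne_zero _ hq) hs
  -- recursion at the start
  have hrec : Psi (s :: (q^2 * s) :: l0) = fac s l0 • Finsupp.mapDomain (St.ins 0) v0 := by
    have := Psi_rec [] l0 s (by simpa [hlen] using hLe)
    simpa using this
  -- forward
  have hf := fwd_eqY y L hL L le_rfl
  rw [Nat.sub_self] at hf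
  simp only [List.replicate_zero, List.nil_append] at hf
  rw [← hsdef] at hf
  -- inversion of the last nonzero variable
  have hinvq : (q^2 * s)⁻¹ = q * s⁻¹ := by
    rw [mul_inv]
    congr 1
    rw [inv_eq_iff_eq_inv]
    apply mul_right_cancel₀ hq
    rw [inv_mul_cancel₀ hq]
    linear_combination h3
  have hinv : Psi (s :: List.replicate L 1 ++ [(q^2 * s), 0]) =
      (q^2 * s)^(L+1) • Psi (s :: List.replicate L 1 ++ [(q * s⁻¹), 0]) := by
    have := Psi_inv0 (q^2 * s) (s :: List.replicate L 1) hq2s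
      (by simpa using hLe)
    rw [hinvq] at this
    simpa using this
  have hb := bwd_eqY y L hL L le_rfl
  rw [Nat.sub_self] at hb
  simp only [List.replicate_zero, List.nil_append] at hb
  rw [← hsdef] at hb
  -- inversion of the first variable
  have hinv1 : Psi (s :: (q * s⁻¹) :: l0) = s^(L+1) • Psi (s⁻¹ :: (q * s⁻¹) :: l0) := by
    have := Psi_inv1 s ((q * s⁻¹) :: l0) hs
      (by simp only [List.length_cons, hlen]; exact hLe.add_one)
    simpa [hlen] using this
  -- exchange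
  have hexch : Psi ((q * s⁻¹) :: s⁻¹ :: l0) =
      Finsupp.mapDomain (St.act 0) (Psi (s⁻¹ :: (q * s⁻¹) :: l0)) := by
    have := Psi_exch [] l0 (s⁻¹) (q * s⁻¹) (by simpa [hlen] using hLe)
    have e1 : q * s⁻¹ - q^2 * (q * s⁻¹) = (q - 1) * s⁻¹ := by linear_combination (-s⁻¹) * h3
    have e2 : q * (q * s⁻¹) - q^2 * s⁻¹ = 0 := by ring
    have e3 : (q * s⁻¹) - s⁻¹ = (q - 1) * s⁻¹ := by ring
    rw [e1, e2, e3, zero_smul, zero_add] at this
    have hne : (q - 1) * s⁻¹ ≠ 0 :=
      mul_ne_zero (sub_ne_zero.2 q_ne_one) (inv_ne_zero hs)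
    have h5 := congrArg (fun f => ((q - 1) * s⁻¹)⁻¹ • f) this
    simp only [smul_smul, inv_mul_cancel₀ hne, one_smul] at h5
    simpa using h5
  have hrec2 : Psi ((q * s⁻¹) :: s⁻¹ :: l0) =
      fac (q * s⁻¹) l0 • Finsupp.mapDomain (St.ins 0) v0 := by
    have := Psi_rec [] l0 (q * s⁻¹) (by simpa [hlen] using hLe)
    have e : q^2 * (q * s⁻¹) = s⁻¹ := by linear_combination s⁻¹ * h3
    rw [e] at this
    simpa using this
  -- cancel ins 0
  have hact : ∀ g : St →₀ ℂ, Finsupp.mapDomain (St.act 0) g =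
      Finsupp.mapDomain (St.ins 0) (Finsupp.mapDomain (St.cap 0) g) := by
    intro g
    rw [← Finsupp.mapDomain_comp]
    congr 1
    funext R
    exact St.act_eq 0 R
  have hcap : Finsupp.mapDomain (St.cap 0) (Psi (s⁻¹ :: (q * s⁻¹) :: l0)) =
      fac (q * s⁻¹) l0 • v0 := by
    apply Finsupp.mapDomain_injective (St.ins_inj 0)
    rw [← hact, ← hexch, hrec2, mapDomain_lin]
  -- conclusion
  have hmain : fac s l0 • TY L y v0 = fac s l0 • v0 := by
    rw [← TY_smul]
    unfold TY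
    rw [mapDomain_lin, ← hrec]
    rw [← hf]
    have e1 : s :: List.replicate L (1:ℂ) ++ (q^2 * s) :: [0] =
      s :: List.replicate L 1 ++ [(q^2 * s), 0] := rfl
    rw [e1, hinv, bwdY_smul]
    have e2 : s :: List.replicate L (1:ℂ) ++ [(q * s⁻¹), 0] =
      s :: List.replicate L 1 ++ (q * s⁻¹) :: [0] := rfl
    rw [e2, hb, hinv1, smul_smul, mapDomain_lin, hcap, smul_smul]
    rw [hl0, fac_const s hs L]
  have hne : fac s l0 ≠ 0 := fac_neY y L
  have h5 := congrArg (fun f => (fac s l0)⁻¹ • f) hmain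
  simp only [smul_smul, inv_mul_cancel₀ hne, one_smul] at h5
  exact h5

end Q292.Env
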