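import Pool.Agent.Q292.Env.Meas
import Pool.Agent.H31C.Main
import Pool.Agent.H863R4.AllPar

/-!
The crossing probability of the slit strip does not depend on the layered environment.
-/

set_option autoImplicit false

namespace Q292.Env

open Pool.Agent.H988R2.Perc Finset MeasureTheory ProbabilityTheory unitInterval Filter Topology
open Pool.Agent.H980R3.Slit
open Pool.Agent.H988R2.Perc.T24 (nrm nrm_nonneg BdV)

theorem prod_tendsto_zero (g : ℕ → ℝ) (δ : ℝ) (hδ : 0 < δ) (hδ1 : δ ≤ 1) (h0 : ∀ n, 0 ≤ g n)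
    (h1 : ∀ n, g n ≤ 1)
    (hf : ∃ᶠ n in atTop, g n ≤ 1 - δ) : Tendsto (fun M => ∏ n ∈ range M, g n) atTop (𝓝 0) := by
  have hP0 : ∀ M, 0 ≤ ∏ n ∈ range M, g n := fun M => prod_nonneg fun n _ => h0 n
  have hanti : Antitone (fun M => ∏ n ∈ range M, g n) := by
    refine antitone_nat_of_succ_le fun M => ?_
    rw [prod_range_succ]
    exact mul_le_of_le_one_right (hP0 M) (h1 M)
  have key : ∀ k : ℕ, ∃ M, ∏ n ∈ range M, g n ≤ (1 - δ)^k := by
    intro k
    induction k with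
    | zero => exact ⟨0, by simp⟩
    | succ k ih =>
      obtain ⟨M, hM⟩ := ih
      obtain ⟨n, hn, hg⟩ := (frequently_atTop.1 hf) M
      refine ⟨n + 1, ?_⟩
      rw [prod_range_succ, pow_succ]
      exact mul_le_mul ((hanti hn).trans hM) hg (h0 n) (pow_nonneg (by linarith) _)
  have hpow : Tendsto (fun k : ℕ => (1 - δ)^k) atTop (𝓝 0) :=
    tendsto_pow_atTop_nhds_zero_of_lt_one (by linarith) (by linarith)
  rw [tendsto_order]
  constructor
  · intro a ha
    exact Eventually.of_forall fun M => lt_of_lt_of_le ha (hP0 M)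
  · intro a ha
    obtain ⟨k, hk⟩ := (hpow.eventually_lt_const ha).exists
    obtain ⟨M, hM⟩ := key k
    filter_upwards [eventually_ge_atTop M] with M' hM'
    exact lt_of_le_of_lt ((hanti hM').trans hM) hk

/-- the weights are elliptic infinitely often in the future -/
def ElF (y : ℤ → I) : Prop := ∃ ε : ℝ, 0 < ε ∧
  ∃ᶠ n : ℕ in atTop, ε ≤ (y (n:ℤ) : ℝ) ∧ (y (n:ℤ) : ℝ) ≤ 1 - ε

/-- the weights are elliptic infinitely often in the past -/
def ElP (y : ℤ → I) : Prop := ∃ ε : ℝ, 0 < ε ∧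
  ∃ᶠ n : ℕ in atTop, ε ≤ (y (-(n:ℤ)-1) : ℝ) ∧ (y (-(n:ℤ)-1) : ℝ) ≤ 1 - ε

theorem one_sub_el (L : ℕ) {y ε : ℝ} (hε : 0 < ε) (h1 : ε ≤ y) (h2 : y ≤ 1 - ε) :
    1 - el y ^ L * el y ^ L ≤ 1 - ε ^ L * ε ^ L := by
  have h : ε ≤ el y := le_min h1 (by linarith)
  have h3 := pow_le_pow_left₀ hε.le h L
  have h4 := mul_le_mul h3 h3 (pow_nonneg hε.le L) (pow_nonneg (hε.le.trans h) L)
  linarith

theorem fac01 (L : ℕ) (y : I) : 0 ≤ 1 - el (y:ℝ) ^ L * el (y:ℝ) ^ L ∧
    1 - el (y:ℝ) ^ L * el (y:ℝ) ^ L ≤ 1 := by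
  have h0 := el_nonneg y.2
  have h1 := el_le_one y.2
  have h2 := pow_le_one₀ (n := L) h0 h1
  have h3 := pow_nonneg h0 L
  constructor
  · nlinarith
  · nlinarith

theorem elProd (y : ℕ → I) (hf : ∃ ε : ℝ, 0 < ε ∧
    ∃ᶠ n : ℕ in atTop, ε ≤ (y n : ℝ) ∧ (y n : ℝ) ≤ 1 - ε) (L : ℕ) : Tendsto (fun M =>
    ∏ n ∈ range M, (1 - el (y n)^L * el (y n)^L)) atTop (𝓝 0) := by
  obtain ⟨ε, hε, hf⟩ := hf
  have hε1 : ε ≤ 1 := by
    obtain ⟨n, h1, h2⟩ := hf.exists
    linarith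
  exact prod_tendsto_zero (fun n : ℕ => 1 - el (y n : ℝ)^L * el (y n : ℝ)^L) (ε^L*ε^L)
    (by positivity)
    (by
      have := pow_le_one₀ (n := L) hε.le hε1
      have := pow_pos hε L
      nlinarith)
    (fun n => (fac01 L _).1) (fun n => (fac01 L _).2)
    (hf.mono fun n hn => one_sub_el L hε hn.1 hn.2)

theorem pastProd (y : ℤ → I) (hE : ElP y) (L : ℕ) : Tendsto (fun M =>
    ∏ j ∈ range M, (1 - el (cP y M j)^L * el (cP y M j)^L)) atTop (𝓝 0) := by
  refine (elProd (fun n => y (-(n:ℤ)-1)) hE L).congr fun M => ?_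
  rw [← Finset.prod_range_reflect]
  refine Finset.prod_congr rfl fun j hj => ?_
  have hj' := Finset.mem_range.mp hj
  have e : -(((M - 1 - j : ℕ) : ℤ)) - 1 = (j:ℤ) - M := by omega
  simp only [cP, e]

theorem futProd (y : ℤ → I) (hE : ElF y) (L : ℕ) : Tendsto (fun M =>
    ∏ j ∈ range M, (1 - el (cF y M j)^L * el (cF y M j)^L)) atTop (𝓝 0) := by
  refine (elProd (fun n => y (n:ℤ)) hE L).congr fun M => ?_
  rw [← Finset.prod_range_reflect]
  refine Finset.prod_congr rfl fun j hj => ?_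
  have hj' := Finset.mem_range.mp hj
  have e : (((M - 1 - j : ℕ) : ℤ)) = (M:ℤ) - 1 - j := by omega
  simp only [cF, e]

theorem psi_bd (L : ℕ) (hL : Odd L) : BdV (L+1) (Psi (List.replicate L 1 ++ [0])) := by
  intro R hR a b hab
  have hlen : (List.replicate L (1:ℂ) ++ [0]).length = L + 1 := by simp
  have := Psi_supp (List.replicate L 1 ++ [0]) (by rw [hlen]; exact hL.add_one) R hR a b hab
  rw [hlen] at this
  exact this

theorem law_tendsto (L : ℕ) (hL : Odd L) (c : ℕ → ℕ → ℝ) (hc : ∀ M j, c M j ∈ Set.Icc (0:ℝ) 1)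
    (hp : Tendsto (fun M => ∏ j ∈ range M, (1 - el (c M j)^L * el (c M j)^L)) atTop (𝓝 0)) :
    Tendsto (fun M => nrm (lawY L (c M) M + (-1 : ℂ) • sv L)) atTop (𝓝 0) := by
  have h := hp.mul_const (nrm (Finsupp.single St.bot 1 + (-1 : ℂ) • sv L))
  rw [zero_mul] at h
  exact squeeze_zero (fun _ => nrm_nonneg _)
    (fun M => (law_diff L hL (psi1_mass_ne L hL) (psi_bd L hL) (c M) M (fun j _ => hc M j)).1) h

/-- **the crossing probability of the slit strip is the same in all layered environments** -/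
theorem percP_slitCross {a b : ℕ} {p : Edge → I} {y0 y1 y2 : ℤ → I} (hp : Lay a b p y0 y1 y2)
    (h0 : ElP y0) (h1 : ElF y1) (h2 : ElF y2) (ha : Odd a) (hb : Odd b) :
    (percP p).real (SlitCross a b) = perc.real (SlitCross a b) := by
  have hL : Odd (a + b + 1) := (ha.add_odd hb).add_one
  have h4 := t_C04 t_C01 t_C02 t_C03
  have h5 := t_C05 t_C01 t_C02 t_C03
  have e1 : Tendsto (fun M => (percP p).real (WinS a b M)) atTop
      (𝓝 ((percP p).real (SlitCross a b))) := by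
    have h1 : Tendsto (fun M => (percP p) (WinS a b M)) atTop (𝓝 ((percP p) (⋃ M, WinS a b M))) :=
      tendsto_measure_iUnion_atTop (winS_mono h4 h5 ha hb)
    rw [iUnion_winS h4 h5 t_C06 t_C07 ha hb] at h1
    exact (ENNReal.tendsto_toReal (measure_ne_top _ (SlitCross a b))).comp h1
  have e2 : Tendsto (fun M => (((percP p).real (WinS a b M) : ℝ) : ℂ)) atTop
      (𝓝 (((percP p).real (SlitCross a b) : ℝ) : ℂ)) :=
    (Complex.continuous_ofReal.tendsto _).comp e1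
  have cP01 : ∀ (y : ℤ → I) M j, cP y M j ∈ Set.Icc (0:ℝ) 1 := fun y M j => (y _).2
  have cF01 : ∀ (y : ℤ → I) M j, cF y M j ∈ Set.Icc (0:ℝ) 1 := fun y M j => (y _).2
  have e3 := t_C13 t_C11 a b (fun M => lawY (a+b+1) (cP y0 M) M) (fun M => lawY a (cF y1 M) M)
    (fun M => lawY b (cF y2 M) M) _ _ _
    (law_tendsto (a+b+1) hL (fun M => cP y0 M) (cP01 y0) (pastProd y0 h0 _))
    (law_tendsto a ha (fun M => cF y1 M) (cF01 y1) (futProd y1 h1 _))
    (law_tendsto b hb (fun M => cF y2 M) (cF01 y2) (futProd y2 h2 _))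
  have e4 : Tendsto (fun M => (((percP p).real (WinS a b M) : ℝ) : ℂ)) atTop
      (𝓝 (pair3 a b (sv (a+b+1)) (sv a) (sv b))) := by
    refine e3.congr fun M => ?_
    rw [percP_winS hp ha M]
  have e5 := tendsto_nhds_unique e2 e4
  have e6 := final a b ha hb
  obtain ⟨_, _, _, s1, s2, s3, _⟩ := t_C11
  have e7 : (((percP p).real (SlitCross a b) : ℝ) : ℂ) = ((perc.real (SlitCross a b) : ℝ) : ℂ) := by
    rw [e5, e6]
    unfold sv
    rw [s1, s2, s3]
    have n0 := psi1_mass_ne _ hL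
    have n1 := psi1_mass_ne a ha
    have n2 := psi1_mass_ne b hb
    unfold psi1 at n0 n1 n2 ⊢
    field_simp
  exact_mod_cast e7

end Q292.Env
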